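import Pool.Agent.W_a51130_h68.KM.Free2

/-!
MP_a51130_gt: a one-cusped toric piece of dimension 4 (a hyperbolic 4-manifold of Euler
characteristic 4 with one cusp, of type the 3-torus, of the kind constructed by Kolpakov and
Martelli).
-/

namespace QIG.KM

open QIG

/-- The base point of `X`. -/
def x0 : X := (1, 0)

/-- The group as a group of pairs. -/
noncomputable def Gt : Subgroup (Au × Equiv.Perm (HPt 3)) where
  carrier := {p | ∃ h : p.1 ∈ G, p ∈ GG ∧ ph ⟨p.1, h⟩ x0 = x0}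
  one_mem' := ⟨G.one_mem, GG.one_mem, by
    change ph (1 : G) x0 = x0
    rw [map_one]; rfl⟩
  mul_mem' := by
    rintro a b ⟨h1, h2, h3⟩ ⟨k1, k2, k3⟩
    refine ⟨G.mul_mem h1 k1, GG.mul_mem h2 k2, ?_⟩
    change ph ((⟨a.1, h1⟩ : G) * ⟨b.1, k1⟩) x0 = x0
    rw [map_mul, Equiv.Perm.mul_apply, k3, h3]
  inv_mem' := by
    rintro a ⟨h1, h2, h3⟩
    refine ⟨G.inv_mem h1, GG.inv_mem h2, ?_⟩
    change ph (⟨a.1, h1⟩ : G)⁻¹ x0 = x0
    rw [map_inv]
    change (ph (⟨a.1, h1⟩ : G)).symm x0 = x0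
    rw [Equiv.symm_apply_eq]
    exact h3.symm

/-- The group. -/
noncomputable def Gam : Subgroup (Equiv.Perm (HPt 3)) := Gt.map (MonoidHom.snd _ _)

theorem mem_Gam {g : Equiv.Perm (HPt 3)} :
    g ∈ Gam ↔ ∃ A : G, (A.1, g) ∈ GG ∧ ph A x0 = x0 := by
  constructor
  · rintro ⟨⟨A, g'⟩, ⟨h1, h2, h3⟩, rfl⟩
    exact ⟨⟨A, h1⟩, h2, h3⟩
  · rintro ⟨A, h1, h2⟩
    exact ⟨(A.1, g), ⟨A.2, h1, h2⟩, rfl⟩

theorem one_GG : ((1 : Au), (1 : Equiv.Perm (HPt 3))) ∈ GG := GG.one_mem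

theorem Gam_isom : ∀ g ∈ Gam, ∀ x y, chd (g x) (g y) = chd x y := by
  intro g hg
  obtain ⟨A, h1, _⟩ := mem_Gam.mp hg
  exact h1.2.2

theorem Gam_free : ∀ g ∈ Gam, ∀ x, g x = x → g = 1 := by
  intro g hg x hx
  obtain ⟨A, h1, h2⟩ := mem_Gam.mp hg
  have hA := free_main A h1 hx x0 h2
  rw [hA] at h1
  exact pair_unique h1 one_GG

theorem Gam_discrete : ∀ r : ℝ, {g | g ∈ Gam ∧ chd (QIG.base 3) (g (QIG.base 3)) ≤ r}.Finite := by
  intro r
  refine (fin_disc r).subset ?_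
  rintro g ⟨hg, hr⟩
  obtain ⟨A, h1, _⟩ := mem_Gam.mp hg
  exact ⟨⟨A.1, h1⟩, hr⟩

/-- The height of a point with respect to a finite cusp is at most the inverse of the height. -/
theorem h_ge {z : L} (hf : f z = 0) (hc : 1 ≤ z.2.2) (y : HPt 3) : 2 * y.t ≤ h z y := by
  have ht := y.pos
  have hb : (z.2.1 0 : ℝ) ^ 2 + (z.2.1 1 : ℝ) ^ 2 + (z.2.1 2 : ℝ) ^ 2 = (z.1 : ℝ) * (z.2.2 : ℝ) := by
    have : z.2.1 0 ^ 2 + z.2.1 1 ^ 2 + z.2.1 2 ^ 2 = z.1 * z.2.2 := by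
      simp only [f, ip] at hf; linarith
    exact_mod_cast this
  have hc' : (1 : ℝ) ≤ z.2.2 := by exact_mod_cast hc
  rw [h, le_div_iff₀ (by positivity)]
  set k : ℝ := (z.2.2 : ℝ) with hk
  set a : ℝ := (z.1 : ℝ)
  have e : k * (a - 4 * ((z.2.1 0 : ℝ) * y.u 0 + (z.2.1 1 : ℝ) * y.u 1 + (z.2.1 2 : ℝ) * y.u 2) +
      4 * k * (y.u 0 ^ 2 + y.u 1 ^ 2 + y.u 2 ^ 2 + y.t ^ 2)) =
      ((z.2.1 0 : ℝ) - 2 * k * y.u 0) ^ 2 + ((z.2.1 1 : ℝ) - 2 * k * y.u 1) ^ 2 +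
      ((z.2.1 2 : ℝ) - 2 * k * y.u 2) ^ 2 + 4 * k ^ 2 * y.t ^ 2 := by
    linear_combination -hb
  have h1 : k * (4 * k * y.t ^ 2) ≤ k * (a - 4 * ((z.2.1 0 : ℝ) * y.u 0 +
      (z.2.1 1 : ℝ) * y.u 1 + (z.2.1 2 : ℝ) * y.u 2) +
      4 * k * (y.u 0 ^ 2 + y.u 1 ^ 2 + y.u 2 ^ 2 + y.t ^ 2)) := by
    rw [e]
    nlinarith [sq_nonneg ((z.2.1 0 : ℝ) - 2 * k * y.u 0), sq_nonneg ((z.2.1 1 : ℝ) - 2 * k * y.u 1),
      sq_nonneg ((z.2.1 2 : ℝ) - 2 * k * y.u 2)]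
  have h2 := le_of_mul_le_mul_left h1 (by linarith)
  nlinarith [sq_nonneg y.t]

theorem q_eq_zero_iff (v : Fin 3 → ℤ) : q v = 0 ↔ (2 ∣ v 0 ∧ 2 ∣ v 1 ∧ 24 ∣ v 2) := by
  have e0 := ZMod.intCast_zmod_eq_zero_iff_dvd (v 0) 2
  have e1 := ZMod.intCast_zmod_eq_zero_iff_dvd (v 1) 2
  have e2 := ZMod.intCast_zmod_eq_zero_iff_dvd (v 2) 24
  constructor
  · intro h
    have h0 : ((v 0 : ℤ) : ZMod 2) = 0 := congrArg Prod.fst h
    have h1 : ((v 1 : ℤ) : ZMod 2) = 0 := congrArg (fun b : B => b.2.1) h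
    have h2 : ((v 2 : ℤ) : ZMod 24) = 0 := congrArg (fun b : B => b.2.2) h
    exact ⟨by exact_mod_cast e0.mp h0, by exact_mod_cast e1.mp h1, by exact_mod_cast e2.mp h2⟩
  · rintro ⟨h0, h1, h2⟩
    refine Prod.ext ?_ (Prod.ext ?_ ?_)
    · exact e0.mpr (by exact_mod_cast h0)
    · exact e1.mpr (by exact_mod_cast h1)
    · exact e2.mpr (by exact_mod_cast h2)

theorem d_one : DG 1 = 1 := by
  have h := DG_mul 1 1
  rw [mul_one] at h
  exact left_eq_mul.mp h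

/-- The stabiliser of the cusp. -/
theorem cusp_stab {A : G} (hc : cc A = 0) (hA : ph A x0 = x0) : ∃ v, q v = 0 ∧ A = TG v := by
  obtain ⟨v, d, rfl⟩ := base A hc
  rw [map_mul, ph_T, ph_D] at hA
  change tX v (rX d x0) = x0 at hA
  rw [rX_apply, tX_apply] at hA
  have h1 : d * 1 = 1 := congrArg Prod.fst hA
  rw [mul_one] at h1
  subst h1
  have h2 : (0 : B) + q (sm (1 * 1) v) = 0 := congrArg Prod.snd hA
  rw [mul_one, sm_one, zero_add] at h2
  exact ⟨v, h2, by rw [d_one, mul_one]⟩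

theorem transl_mem {v : Fin 3 → ℤ} (hv : q v = 0) : transl (half v) ∈ Gam := by
  refine mem_Gam.mpr ⟨TG v, pT_mem v, ?_⟩
  rw [ph_T, tX_apply]
  refine Prod.ext rfl ?_
  change (0 : B) + q (sm 1 v) = 0
  rw [sm_one, hv, zero_add]

theorem Gam_cusp : ∀ g ∈ Gam, ∀ x, 1 / 2 < x.t → 1 / 2 < (g x).t → ∃ v, g = transl v := by
  intro g hg x hx hgx
  obtain ⟨A, h1, h2⟩ := mem_Gam.mp hg
  have hc : cc A = 0 := by
    by_contra hne
    have h0 := cc_nonneg A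
    have h3 : 2 * (g x).t ≤ h (A.1 inf) (g x) :=
      h_ge (f_cusp A) (by change 1 ≤ cc A; omega) (g x)
    have h4 := h1.2.1 inf x
    change h (A.1 inf) (g x) = h inf x at h4
    rw [h4, h_inf] at h3
    have h5 : 1 / (2 * x.t) < 1 := by
      rw [div_lt_one (by linarith)]
      linarith
    linarith
  obtain ⟨v, _, hv⟩ := cusp_stab hc h2
  refine ⟨half v, ?_⟩
  rw [hv] at h1
  exact pair_unique h1 (pT_mem v)

theorem Gam_toric : Submodule.span ℝ {v | transl v ∈ Gam} = ⊤ := by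
  rw [eq_top_iff]
  intro v _
  have h0 : half ![2, 0, 0] ∈ Submodule.span ℝ {v | transl v ∈ Gam} :=
    Submodule.subset_span (transl_mem ((q_eq_zero_iff _).mpr ⟨by simp, by simp, by simp⟩))
  have h1 : half ![0, 2, 0] ∈ Submodule.span ℝ {v | transl v ∈ Gam} :=
    Submodule.subset_span (transl_mem ((q_eq_zero_iff _).mpr ⟨by simp, by simp, by simp⟩))
  have h2 : half ![0, 0, 24] ∈ Submodule.span ℝ {v | transl v ∈ Gam} :=
    Submodule.subset_span (transl_mem ((q_eq_zero_iff _).mpr ⟨by simp, by simp, by simp⟩))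
  have hv : v = (v 0) • half ![2, 0, 0] + (v 1) • half ![0, 2, 0] +
      (v 2 / 12) • half ![0, 0, 24] := by
    ext i
    fin_cases i <;> simp
    ring
  rw [hv]
  exact Submodule.add_mem _ (Submodule.add_mem _ (Submodule.smul_mem _ _ h0)
    (Submodule.smul_mem _ _ h1)) (Submodule.smul_mem _ _ h2)

theorem q_surj (c : B) : ∃ v, q v = c := by
  refine ⟨![(c.1.val : ℤ), (c.2.1.val : ℤ), (c.2.2.val : ℤ)], ?_⟩
  refine Prod.ext ?_ (Prod.ext ?_ ?_)
  · change (((c.1.val : ℕ) : ℤ) : ZMod 2) = c.1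
    simp
  · change (((c.2.1.val : ℕ) : ℤ) : ZMod 2) = c.2.1
    simp
  · change (((c.2.2.val : ℕ) : ℤ) : ZMod 24) = c.2.2
    simp

/-- `Gam` is transitive on the integral cusps. -/
theorem cusp_trans (b : Fin 3 → ℤ) : ∃ p ∈ Gt, p.1⁻¹ inf = pt b := by
  set W : G := SG * TG (-b) with hW
  obtain ⟨v, hv⟩ := q_surj (-(ph W x0).2)
  set A : G := TG v * DG (ph W x0).1 * W with hA
  refine ⟨(A.1, transl (half v) * flip (ph W x0).1 * (ivs * transl (half (-b)))), ?_, ?_⟩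
  · refine ⟨A.2, ?_, ?_⟩
    · exact mulGG (mulGG (pT_mem v) (pD_mem _)) (mulGG pS_mem (pT_mem (-b)))
    · change ph A x0 = x0
      rw [hA, map_mul, map_mul, ph_T, ph_D]
      change tX v (rX (ph W x0).1 (ph W x0)) = x0
      rw [rX_apply, tX_apply, sg_sq]
      refine Prod.ext rfl ?_
      change (ph W x0).2 + q (sm 1 v) = 0
      rw [sm_one, hv, add_neg_cancel]
  · change (A⁻¹).1 inf = pt b
    apply inv_inf_of_symm'
    change T v (Dg (ph W x0).1 (S (T (-b) (pt b)))) = inf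
    have e : S (T (-b) (pt b)) = inf := by
      refine Prod.ext ?_ (Prod.ext ?_ ?_)
      · simp [pt, inf]
      · funext i; simp [pt, inf]
      · simp [pt, inf, ip]; ring
    rw [e]
    refine Prod.ext ?_ (Prod.ext ?_ ?_)
    · simp [inf, ip, sm]
    · funext i; simp [inf, sm]
    · simp [inf]

theorem Gt_le : Gt ≤ GG := fun _ hp => hp.2.1

theorem Gam_cocompact : ∃ r : ℝ, ∀ x, (∀ g ∈ Gam, (g x).t ≤ 1) →
    ∃ g ∈ Gam, chd (g x) (QIG.base 3) ≤ r := by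
  refine ⟨218, fun x hx => ?_⟩
  obtain ⟨p, hp, hmax⟩ := exists_high Gt Gt_le x
  set y := p.2 x with hy
  have hpG : p.2 ∈ Gam := ⟨p, hp, rfl⟩
  have hyt : y.t ≤ 1 := hx _ hpG
  have hpos := y.pos
  -- lower bound for the height
  have hlow : 1 / 4 ≤ y.t := by
    obtain ⟨r, hr, hrc⟩ := cusp_trans (fun i => round (2 * y.u i))
    have h1 := hmax (r * p) (Gt.mul_mem hr hp)
    change (r.2 y).t ≤ y.t at h1
    have h2 := h_cusp_inv r (Gt_le hr) y
    rw [hrc, h_pt] at h2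
    have hrt := (r.2 y).pos
    have h3 : 1 / (2 * y.t) ≤ 1 / (2 * (r.2 y).t) := by
      apply one_div_le_one_div_of_le (by positivity)
      linarith
    rw [← h2, div_le_div_iff_of_pos_right (by positivity)] at h3
    have a0 := abs_sub_round (2 * y.u 0)
    have a1 := abs_sub_round (2 * y.u 1)
    have a2 := abs_sub_round (2 * y.u 2)
    have b0 : (2 * y.u 0 - round (2 * y.u 0)) ^ 2 ≤ (1 / 2) ^ 2 := sq_le_sq' (by linarith [neg_abs_le (2 * y.u 0 - round (2 * y.u 0))]) (by linarith [le_abs_self (2 * y.u 0 - round (2 * y.u 0))])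
    have b1 : (2 * y.u 1 - round (2 * y.u 1)) ^ 2 ≤ (1 / 2) ^ 2 := sq_le_sq' (by linarith [neg_abs_le (2 * y.u 1 - round (2 * y.u 1))]) (by linarith [le_abs_self (2 * y.u 1 - round (2 * y.u 1))])
    have b2 : (2 * y.u 2 - round (2 * y.u 2)) ^ 2 ≤ (1 / 2) ^ 2 := sq_le_sq' (by linarith [neg_abs_le (2 * y.u 2 - round (2 * y.u 2))]) (by linarith [le_abs_self (2 * y.u 2 - round (2 * y.u 2))])
    nlinarith
  -- translation into a bounded region
  set w : Fin 3 → ℤ := ![-(2 * round (y.u 0)), -(2 * round (y.u 1)), -(24 * round (y.u 2 / 12))]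
    with hw
  have hqw : q w = 0 := (q_eq_zero_iff w).mpr ⟨⟨- round (y.u 0), by simp [hw]⟩,
    ⟨- round (y.u 1), by simp [hw]⟩, ⟨- round (y.u 2 / 12), by simp [hw]⟩⟩
  refine ⟨transl (half w) * p.2, Gam.mul_mem (transl_mem hqw) hpG, ?_⟩
  change chd (transl (half w) y) (QIG.base 3) ≤ 218
  have hu : ∀ i, (transl (half w) y).u i = y.u i + (w i : ℝ) / 2 := fun i => rfl
  have ht : (transl (half w) y).t = y.t := rfl
  have hbu : ∀ i, (QIG.base 3).u i = 0 := fun i => rfl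
  have hbt : (QIG.base 3).t = 1 := rfl
  rw [chd, normsq, hu, hu, hu, ht, hbu, hbu, hbu, hbt, div_le_iff₀ (by positivity)]
  have a0 := abs_le.mp (abs_sub_round (y.u 0))
  have a1 := abs_le.mp (abs_sub_round (y.u 1))
  have a2 := abs_le.mp (abs_sub_round (y.u 2 / 12))
  have w0 : (w 0 : ℝ) / 2 = - round (y.u 0) := by
    simp only [hw]; simp; ring
  have w1 : (w 1 : ℝ) / 2 = - round (y.u 1) := by
    simp only [hw]; simp; ring
  have w2 : (w 2 : ℝ) / 2 = - 12 * round (y.u 2 / 12) := by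
    simp only [hw]; simp; ring
  rw [w0, w1, w2]
  have c0 : (y.u 0 + -(round (y.u 0) : ℝ) - 0) ^ 2 ≤ 1 := by nlinarith
  have c1 : (y.u 1 + -(round (y.u 1) : ℝ) - 0) ^ 2 ≤ 1 := by nlinarith
  have c2 : (y.u 2 + -12 * (round (y.u 2 / 12) : ℝ) - 0) ^ 2 ≤ 36 := by
    have e : y.u 2 + -12 * (round (y.u 2 / 12) : ℝ) - 0 = 12 * (y.u 2 / 12 - round (y.u 2 / 12)) := by
      ring
    rw [e]
    nlinarith
  have c3 : (y.t - 1) ^ 2 ≤ 1 := by nlinarith
  nlinarith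

/-- A one-cusped toric piece of dimension `4`. -/
noncomputable def km : Piece 3 where
  Γ := Gam
  isom := Gam_isom
  free := Gam_free
  discrete := Gam_discrete
  cusp := Gam_cusp
  toric := Gam_toric
  cocompact := Gam_cocompact

/-- The cusp lattice is `Z x Z x 12 Z`. -/
theorem km_lat (v : E 3) : v ∈ km.lat ↔ ∃ a b c : ℤ, v 0 = a ∧ v 1 = b ∧ v 2 = 12 * c := by
  constructor
  · intro hv
    obtain ⟨A, h1, h2⟩ := mem_Gam.mp (show transl v ∈ Gam from hv)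
    have hc : cc A = 0 := by
      by_contra hne
      have h0 := cc_nonneg A
      set x : HPt 3 := ⟨0, 1, one_pos⟩ with hx
      have h3 : 2 * (transl v x).t ≤ h (A.1 inf) (transl v x) :=
        h_ge (f_cusp A) (by change 1 ≤ cc A; omega) _
      have h4 := h1.2.1 inf x
      change h (A.1 inf) (transl v x) = h inf x at h4
      rw [h4, h_inf] at h3
      have h5 : (transl v x).t = 1 := rfl
      have h6 : x.t = 1 := rfl
      rw [h5, h6] at h3
      norm_num at h3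
    obtain ⟨w, hw, hA⟩ := cusp_stab hc h2
    rw [hA] at h1
    have h3 := transl_injective (pair_unique h1 (pT_mem w))
    obtain ⟨⟨a, ha⟩, ⟨b, hb⟩, ⟨c, hc⟩⟩ := (q_eq_zero_iff w).mp hw
    refine ⟨a, b, c, ?_, ?_, ?_⟩
    · rw [h3, half_apply, ha]; push_cast; ring
    · rw [h3, half_apply, hb]; push_cast; ring
    · rw [h3, half_apply, hc]; push_cast; ring
  · rintro ⟨a, b, c, ha, hb, hc⟩
    have h1 := transl_mem (v := ![2 * a, 2 * b, 24 * c])
      ((q_eq_zero_iff _).mpr ⟨⟨a, by simp⟩, ⟨b, by simp⟩, ⟨c, by simp⟩⟩)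
    have e : half ![2 * a, 2 * b, 24 * c] = v := by
      ext i
      rw [half_apply]
      fin_cases i
      · change ((2 * a : ℤ) : ℝ) / 2 = v 0
        rw [ha]; push_cast; ring
      · change ((2 * b : ℤ) : ℝ) / 2 = v 1
        rw [hb]; push_cast; ring
      · change ((24 * c : ℤ) : ℝ) / 2 = v 2
        rw [hc]; push_cast; ring
    rw [e] at h1
    exact h1

end QIG.KM
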