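import Pool.Agent.W_a51130_h68.KM.Pres

/-!
MP_a51130_gt: the stabiliser of the cusp at infinity; the descent step.
-/

namespace QIG.KM

/-- The denominator of the cusp `A inf`. -/
def cc (A : G) : ℤ := (A.1 inf).2.2

theorem f_inf : f inf = 0 := by simp [f, inf, ip]

theorem f_cusp (A : G) : f (A.1 inf) = 0 := by
  rw [A.2.1, f_inf]

theorem pos_inf : pos inf := ⟨by norm_num [inf], by norm_num [inf]⟩

theorem pos_cusp (A : G) : pos (A.1 inf) := (A.2.2.1 inf f_inf).2 pos_inf

theorem cc_nonneg (A : G) : 0 ≤ cc A := (pos_cusp A).2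

/-- The origin cusp. -/
def org : L := (0, 0, 1)

theorem ip_self_zero {v : Fin 3 → ℤ} (h : ip v v = 0) : v = 0 := by
  simp only [ip] at h
  have a0 : v 0 = 0 := by nlinarith [sq_nonneg (v 0), sq_nonneg (v 1), sq_nonneg (v 2)]
  have a1 : v 1 = 0 := by nlinarith [sq_nonneg (v 0), sq_nonneg (v 1), sq_nonneg (v 2)]
  have a2 : v 2 = 0 := by nlinarith [sq_nonneg (v 0), sq_nonneg (v 1), sq_nonneg (v 2)]
  funext i
  fin_cases i
  · exact a0
  · exact a1
  · exact a2

theorem f_add (z w : L) : f (z + w) = f z + f w + (2 * ip z.2.1 w.2.1 - z.1 * w.2.2 - z.2.2 * w.1) := by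
  simp only [f, ip, Prod.fst_add, Prod.snd_add, Pi.add_apply]
  ring

/-- The polar form is invariant. -/
theorem bl_inv (A : G) (z w : L) :
    2 * ip (A.1 z).2.1 (A.1 w).2.1 - (A.1 z).1 * (A.1 w).2.2 - (A.1 z).2.2 * (A.1 w).1 =
    2 * ip z.2.1 w.2.1 - z.1 * w.2.2 - z.2.2 * w.1 := by
  have h1 := f_add z w
  have h2 := f_add (A.1 z) (A.1 w)
  rw [← map_add, A.2.1, A.2.1, A.2.1] at h2
  linarith

/-- The basis vector `(0, e_i, 0)`. -/
def ee (i : Fin 3) : L := (0, sg i 1, 0)

theorem ext_basis {A B : Au} (h1 : A inf = B inf) (h2 : A org = B org)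
    (h3 : ∀ i, A (ee i) = B (ee i)) : A = B := by
  apply LinearEquiv.ext
  intro z
  have e : z = z.1 • inf + z.2.1 0 • ee 0 + z.2.1 1 • ee 1 + z.2.1 2 • ee 2 + z.2.2 • org := by
    refine Prod.ext ?_ (Prod.ext ?_ ?_)
    · simp [inf, ee, org]
    · funext j
      fin_cases j <;> simp [inf, ee, org, sg]
    · simp [inf, ee, org]
  rw [e]
  simp only [map_add, map_smul]
  rw [h1, h2, h3, h3, h3]

theorem even_sq_zero {q : ℤ} (h : Even q) (h1 : q * q ≤ 1) : q = 0 := by
  obtain ⟨k, rfl⟩ := h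
  have : k * k = 0 := by nlinarith [sq_nonneg k, mul_self_nonneg k]
  have : k = 0 := by simpa using this
  rw [this]; rfl

/-- The stabiliser of the cusp at infinity. -/
theorem base (A : G) (h : cc A = 0) : ∃ v d, A = TG v * DG d := by
  have hf := f_cusp A
  have hp := pos_cusp A
  have hc : (A.1 inf).2.2 = 0 := h
  have hb : (A.1 inf).2.1 = 0 := by
    apply ip_self_zero
    simp only [f, hc, mul_zero, sub_zero] at hf
    exact hf
  have h1 := bl_inv A inf org
  have e1 : (2 * ip inf.2.1 org.2.1 - inf.1 * org.2.2 - inf.2.2 * org.1) = -1 := by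
    simp [inf, org, ip]
  rw [e1, hb, hc] at h1
  have h2 : (A.1 inf).1 * (A.1 org).2.2 = 1 := by
    have : ip 0 (A.1 org).2.1 = 0 := by simp [ip]
    rw [this] at h1
    linarith
  have h3 : (A.1 inf).1 = 1 := by
    rcases Int.eq_one_or_neg_one_of_mul_eq_one h2 with h | h
    · exact h
    · have := hp.1
      omega
  have h4 : (A.1 org).2.2 = 1 := by rw [h3] at h2; linarith
  have hinf : A.1 inf = inf := Prod.ext h3 (Prod.ext hb hc)
  have hfo : f (A.1 org) = 0 := by rw [A.2.1]; simp [f, org, ip]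
  set v := (A.1 org).2.1 with hv
  have h5 : (A.1 org).1 = ip v v := by
    simp only [f, h4, mul_one] at hfo
    rw [← hv] at hfo
    linarith
  have horg : A.1 org = T v org := by
    refine Prod.ext ?_ (Prod.ext ?_ ?_)
    · rw [h5]; simp [org, ip]
    · rw [← hv]; funext i; simp [org]
    · rw [h4]; simp [org]
  set B : G := TG (-v) * A with hB
  have hAB : A = TG v * B := by
    rw [hB, ← mul_assoc, ← TG_add, add_neg_cancel, TG_zero, one_mul]
  have hBi : B.1 inf = inf := by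
    change T (-v) (A.1 inf) = inf
    rw [hinf]
    refine Prod.ext ?_ (Prod.ext ?_ ?_)
    · simp [inf, ip]
    · funext i; simp [inf]
    · simp [inf]
  have hBo : B.1 org = org := by
    change T (-v) (A.1 org) = org
    rw [horg]
    refine Prod.ext ?_ (Prod.ext ?_ ?_)
    · simp [org, ip]; ring
    · funext i; simp [org]
    · simp [org]
  have key : ∀ i, ∃ u : ℤˣ, B.1 (ee i) = (0, sg i u, 0) := by
    intro i
    have k1 := bl_inv B inf (ee i)
    have k2 := bl_inv B org (ee i)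
    rw [hBi] at k1
    rw [hBo] at k2
    have r0 : (B.1 (ee i)).2.2 = 0 := by
      simp [inf, ee, ip] at k1
      exact k1
    have p0 : (B.1 (ee i)).1 = 0 := by
      simp [org, ee, ip] at k2
      exact k2
    have fq : ip (B.1 (ee i)).2.1 (B.1 (ee i)).2.1 = 1 := by
      have := B.2.1 (ee i)
      simp only [f, r0, p0] at this
      have e : f (ee i) = 1 := by
        fin_cases i <;> simp [f, ee, ip, sg]
      simp only [f] at e
      linarith
    obtain ⟨w, hw⟩ := B.2.2.2 (ee i) (by simp [ee]) (by simp [ee])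
    have hq : ∀ j, (B.1 (ee i)).2.1 j = sg i 1 j + (w.2.1 j + w.2.1 j) := by
      intro j
      rw [hw]
      rfl
    have small : ∀ j, (B.1 (ee i)).2.1 j * (B.1 (ee i)).2.1 j ≤ 1 := by
      intro j
      simp only [ip] at fq
      fin_cases j
      · change (B.1 (ee i)).2.1 0 * (B.1 (ee i)).2.1 0 ≤ 1
        nlinarith [mul_self_nonneg ((B.1 (ee i)).2.1 1), mul_self_nonneg ((B.1 (ee i)).2.1 2)]
      · change (B.1 (ee i)).2.1 1 * (B.1 (ee i)).2.1 1 ≤ 1
        nlinarith [mul_self_nonneg ((B.1 (ee i)).2.1 0), mul_self_nonneg ((B.1 (ee i)).2.1 2)]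
      · change (B.1 (ee i)).2.1 2 * (B.1 (ee i)).2.1 2 ≤ 1
        nlinarith [mul_self_nonneg ((B.1 (ee i)).2.1 0), mul_self_nonneg ((B.1 (ee i)).2.1 1)]
    have zero : ∀ j, j ≠ i → (B.1 (ee i)).2.1 j = 0 := by
      intro j hj
      apply even_sq_zero _ (small j)
      rw [hq j]
      simp only [sg, hj, if_false, zero_add]
      exact ⟨_, rfl⟩
    have one : (B.1 (ee i)).2.1 i = 1 ∨ (B.1 (ee i)).2.1 i = -1 := by
      have hs := small i
      have ho : (B.1 (ee i)).2.1 i ≠ 0 := by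
        rw [hq i]
        simp only [sg, if_true, Units.val_one]
        omega
      have l1 : (B.1 (ee i)).2.1 i ≤ 1 := by nlinarith
      have l2 : -1 ≤ (B.1 (ee i)).2.1 i := by nlinarith
      omega
    rcases one with o | o
    · refine ⟨1, Prod.ext p0 (Prod.ext ?_ r0)⟩
      funext j
      by_cases hj : j = i
      · subst hj; rw [o]; simp [sg]
      · rw [zero j hj]; simp [sg, hj]
    · refine ⟨-1, Prod.ext p0 (Prod.ext ?_ r0)⟩
      funext j
      by_cases hj : j = i
      · subst hj; rw [o]; simp [sg]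
      · rw [zero j hj]; simp [sg, hj]
  choose d hd using key
  refine ⟨v, d, ?_⟩
  rw [hAB]
  congr 1
  apply Subtype.ext
  apply ext_basis
  · rw [hBi]
    refine Prod.ext rfl (Prod.ext ?_ rfl)
    funext i; simp [DG, inf, sm]
  · rw [hBo]
    refine Prod.ext rfl (Prod.ext ?_ rfl)
    funext i; simp [DG, org, sm]
  · intro i
    rw [hd i]
    refine Prod.ext rfl (Prod.ext ?_ rfl)
    funext j
    change sg i (d i) j = (d j : ℤ) * sg i 1 j
    by_cases hj : j = i
    · subst hj; simp [sg]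
    · simp [sg, hj]

/-- Numerator: the denominator of `S T(-m) z`. -/
def N (z : L) (m : Fin 3 → ℤ) : ℤ := z.1 - 2 * ip m z.2.1 + ip m m * z.2.2

theorem cc_step (A : G) (m : Fin 3 → ℤ) : cc (SG * TG (-m) * A) = N (A.1 inf) m := by
  change (T (-m) (A.1 inf)).1 = _
  simp only [T_apply, N, ip, Pi.neg_apply]
  ring

theorem N_mul {z : L} (hz : f z = 0) (m : Fin 3 → ℤ) : z.2.2 * N z m =
    (z.2.1 0 - z.2.2 * m 0) ^ 2 + (z.2.1 1 - z.2.2 * m 1) ^ 2 + (z.2.1 2 - z.2.2 * m 2) ^ 2 := by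
  simp only [f, ip] at hz
  simp only [N, ip]
  linear_combination -hz

/-- Nearest integral point to the cusp. -/
def near (z : L) : Fin 3 → ℤ := fun i => (2 * z.2.1 i + z.2.2) / (2 * z.2.2)

theorem near_le {z : L} (hc : 0 < z.2.2) (i : Fin 3) :
    -z.2.2 ≤ 2 * (z.2.1 i - z.2.2 * near z i) ∧ 2 * (z.2.1 i - z.2.2 * near z i) < z.2.2 := by
  have h1 := Int.emod_nonneg (2 * z.2.1 i + z.2.2) (show 2 * z.2.2 ≠ 0 by omega)
  have h2 := Int.emod_lt_of_pos (2 * z.2.1 i + z.2.2) (show 0 < 2 * z.2.2 by omega)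
  have h3 := Int.mul_ediv_add_emod (2 * z.2.1 i + z.2.2) (2 * z.2.2)
  have h4 : near z i = (2 * z.2.1 i + z.2.2) / (2 * z.2.2) := rfl
  rw [← h4] at h3
  constructor <;> nlinarith

theorem N_near {z : L} (hz : f z = 0) (hc : 0 < z.2.2) : N z (near z) < z.2.2 := by
  have h := N_mul hz (near z)
  have s : ∀ i, 4 * (z.2.1 i - z.2.2 * near z i) ^ 2 ≤ z.2.2 ^ 2 := by
    intro i
    obtain ⟨h1, h2⟩ := near_le hc i
    nlinarith
  have s0 := s 0
  have s1 := s 1
  have s2 := s 2
  by_contra hcon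
  push Not at hcon
  nlinarith

theorem N_nonneg {z : L} (hz : f z = 0) (hc : 0 < z.2.2) (m : Fin 3 → ℤ) : 0 ≤ N z m := by
  have h := N_mul hz m
  by_contra hcon
  push Not at hcon
  nlinarith [sq_nonneg (z.2.1 0 - z.2.2 * m 0), sq_nonneg (z.2.1 1 - z.2.2 * m 1),
    sq_nonneg (z.2.1 2 - z.2.2 * m 2)]

theorem near_T (z : L) (hc : z.2.2 ≠ 0) (v : Fin 3 → ℤ) : near (T v z) = v + near z := by
  funext i
  simp only [near, T_apply, Pi.add_apply]
  have e : 2 * (z.2.1 i + v i * z.2.2) + z.2.2 = (2 * z.2.1 i + z.2.2) + v i * (2 * z.2.2) := by ring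
  rw [e, Int.add_mul_ediv_right _ _ (by omega)]
  ring

end QIG.KM
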