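import Pool.Agent.W_a51130_h68.KM.Tab

/-!
MP_a51130_gt: the finite checks for freeness.
-/

namespace QIG.KM

/-- Indicator vector. -/
def ind (a : Fin 3 → Bool) : Fin 3 → ℤ := fun i => if a i then 1 else 0

/-- Reduction of a signed indicator vector. -/
def qa (a : Fin 3 → Bool) (e : Sg) : B :=
  (if a 0 then 1 else 0, if a 1 then 1 else 0, if a 2 then (if e 2 = 1 then 1 else -1) else 0)

theorem q_ind (a : Fin 3 → Bool) (e : Sg) : q (sm e (ind a)) = qa a e := by
  have two : ∀ i : Fin 3, ((((e i : ℤ) * (if a i then 1 else 0) : ℤ)) : ZMod 2) =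
      if a i then 1 else 0 := by
    intro i
    rcases Int.units_eq_one_or (e i) with h | h <;> rw [h] <;> cases a i <;> simp
  refine Prod.ext (two 0) (Prod.ext (two 1) ?_)
  change (((e 2 : ℤ) * (if a 2 then 1 else 0) : ℤ) : ZMod 24) =
    if a 2 then (if e 2 = 1 then 1 else -1) else 0
  rcases Int.units_eq_one_or (e 2) with h | h <;> rw [h] <;> cases a 2 <;> simp

/-- One inversion. -/
theorem fin1 : ∀ b : B, ∀ e : Sg, ∀ m : Fin 3 → Bool, (∀ i, m i = true → vb b i = 1) →
    tau b ≠ b + qa m e := by
  decide +kernel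

/-- The translation vector in the check with two inversions. -/
def mm (a : Fin 3 → Bool) (d : Sg) (c : Bool) : Fin 3 → Bool :=
  fun i => if a i then decide (d i = 1) else (c && decide (d i = -1))

theorem fin2 : ∀ b : B, ∀ e : Sg, ∀ a : Fin 3 → Bool, ∀ c : Bool,
    ((a 0 && a 1) || (a 0 && a 2) || (a 1 && a 2)) = true →
    tau (tau b - qa a e) ≠ b + qa (mm a (vb b * vb (tau b - qa a e)) c)
      (e * vb (tau b - qa a e)) := by
  decide +kernel

theorem fin4 : ∀ b : B, ∀ e : Sg,
    tau (tau (tau b - qa (fun _ => true) e) - qa (fun _ => true)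
      (e * vb (tau b - qa (fun _ => true) e))) ≠
    b + qa (fun i => decide ((vb b * vb (tau b - qa (fun _ => true) e) *
      vb (tau (tau b - qa (fun _ => true) e) - qa (fun _ => true)
      (e * vb (tau b - qa (fun _ => true) e)))) i = 1))
      (e * vb (tau b - qa (fun _ => true) e) *
      vb (tau (tau b - qa (fun _ => true) e) - qa (fun _ => true)
      (e * vb (tau b - qa (fun _ => true) e)))) := by
  decide +kernel

end QIG.KM
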