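import Pool.Agent.W_a51130_h68.KM.Geo

/-!
MP_a51130_gt: the possible cusps `A inf` for elements `A` with a highest fixed point.
-/

namespace QIG.KM

open QIG

/-- The possible values. -/
def Typ (k : ℤ) (b : Fin 3 → ℤ) : Prop :=
  (k = 1 ∧ ∀ i, b i = 0 ∨ b i = 1) ∨
  (k = 2 ∧ (∀ i, b i = 0 ∨ b i = 1 ∨ b i = 2) ∧
    ((b 0 = 1 ∧ b 1 = 1 ∧ b 2 ≠ 1) ∨ (b 0 = 1 ∧ b 2 = 1 ∧ b 1 ≠ 1) ∨
      (b 1 = 1 ∧ b 2 = 1 ∧ b 0 ≠ 1))) ∨
  (k = 3 ∧ ∀ i, b i = 1 ∨ b i = 2) ∨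
  (k = 4 ∧ ∀ i, b i = 2)

/-- Cost of a coordinate. -/
def cost (k b : ℤ) : ℤ := b ^ 2 - k * max b 0

theorem cost_ge (k b : ℤ) (hk : 0 ≤ k) : -(k ^ 2) ≤ 4 * cost k b := by
  unfold cost
  rcases le_total b 0 with h | h
  · rw [max_eq_right h]; nlinarith
  · rw [max_eq_left h]; nlinarith [sq_nonneg (2 * b - k)]

theorem cost1 (b : ℤ) : 0 ≤ cost 1 b ∧ (cost 1 b ≤ 0 → b = 0 ∨ b = 1) := by
  unfold cost
  rcases le_total b 0 with h | h
  · rw [max_eq_right h]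
    refine ⟨by nlinarith, fun hc => ?_⟩
    have : b = 0 := by nlinarith
    exact Or.inl this
  · rw [max_eq_left h]
    have h2 : b = 0 ∨ 1 ≤ b := by omega
    rcases h2 with h2 | h2
    · subst h2; simp
    · refine ⟨by nlinarith, fun hc => Or.inr ?_⟩
      nlinarith

theorem cost2 (b : ℤ) : -1 ≤ cost 2 b ∧ (cost 2 b ≤ -1 → b = 1) ∧
    (cost 2 b ≤ 0 → b = 0 ∨ b = 1 ∨ b = 2) := by
  unfold cost
  rcases le_total b 0 with h | h
  · rw [max_eq_right h]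
    refine ⟨by nlinarith, fun hc => by nlinarith, fun hc => ?_⟩
    have : b = 0 := by nlinarith
    exact Or.inl this
  · rw [max_eq_left h]
    refine ⟨by nlinarith [sq_nonneg (b - 1)], fun hc => ?_, fun hc => ?_⟩
    · have : (b - 1) ^ 2 ≤ 0 := by nlinarith
      have : b - 1 = 0 := by nlinarith [sq_nonneg (b - 1)]
      omega
    · have : b ≤ 2 := by nlinarith
      omega

theorem cost3 (b : ℤ) : -2 ≤ cost 3 b ∧ (cost 3 b ≤ -2 → b = 1 ∨ b = 2) := by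
  unfold cost
  rcases le_total b 0 with h | h
  · rw [max_eq_right h]
    exact ⟨by nlinarith, fun hc => by nlinarith⟩
  · rw [max_eq_left h]
    have h2 : b = 0 ∨ b = 1 ∨ b = 2 ∨ 3 ≤ b := by omega
    rcases h2 with h2 | h2 | h2 | h2
    · subst h2; simp
    · subst h2; simp
    · subst h2; simp
    · exact ⟨by nlinarith, fun hc => by nlinarith⟩

theorem cost4 (b : ℤ) : -4 ≤ cost 4 b ∧ (cost 4 b ≤ -4 → b = 2) := by
  unfold cost
  rcases le_total b 0 with h | h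
  · rw [max_eq_right h]
    exact ⟨by nlinarith, fun hc => by nlinarith⟩
  · rw [max_eq_left h]
    refine ⟨by nlinarith [sq_nonneg (b - 2)], fun hc => ?_⟩
    have : (b - 2) ^ 2 ≤ 0 := by nlinarith
    have : b - 2 = 0 := by nlinarith [sq_nonneg (b - 2)]
    omega

theorem typ_of_cost (k a : ℤ) (b : Fin 3 → ℤ) (hk : 1 ≤ k)
    (hab : b 0 ^ 2 + b 1 ^ 2 + b 2 ^ 2 = a * k)
    (h : cost k (b 0) + cost k (b 1) + cost k (b 2) ≤ k - k ^ 2) :
    Typ k b ∧ cost k (b 0) + cost k (b 1) + cost k (b 2) = k - k ^ 2 := by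
  have h0 := cost_ge k (b 0) (by omega)
  have h1 := cost_ge k (b 1) (by omega)
  have h2 := cost_ge k (b 2) (by omega)
  have hk4 : k ≤ 4 := by nlinarith
  interval_cases k
  · obtain ⟨p0, r0⟩ := cost1 (b 0)
    obtain ⟨p1, r1⟩ := cost1 (b 1)
    obtain ⟨p2, r2⟩ := cost1 (b 2)
    norm_num at h
    refine ⟨Or.inl ⟨rfl, fun i => ?_⟩, by norm_num; omega⟩
    fin_cases i
    · exact r0 (by omega)
    · exact r1 (by omega)
    · exact r2 (by omega)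
  · obtain ⟨p0, r0, s0⟩ := cost2 (b 0)
    obtain ⟨p1, r1, s1⟩ := cost2 (b 1)
    obtain ⟨p2, r2, s2⟩ := cost2 (b 2)
    norm_num at h
    have not3 : ¬ (b 0 = 1 ∧ b 1 = 1 ∧ b 2 = 1) := by
      rintro ⟨e0, e1, e2⟩
      rw [e0, e1, e2] at hab
      omega
    have e0 : b 0 = 0 ∨ b 0 = 1 ∨ b 0 = 2 := s0 (by omega)
    have e1 : b 1 = 0 ∨ b 1 = 1 ∨ b 1 = 2 := s1 (by omega)
    have e2 : b 2 = 0 ∨ b 2 = 1 ∨ b 2 = 2 := s2 (by omega)
    have v0 : cost 2 0 = 0 := by decide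
    have v1 : cost 2 1 = -1 := by decide
    have v2 : cost 2 2 = 0 := by decide
    refine ⟨Or.inr (Or.inl ⟨rfl, fun i => ?_, ?_⟩), ?_⟩
    · fin_cases i
      · exact e0
      · exact e1
      · exact e2
    · rcases e0 with e0 | e0 | e0 <;> rcases e1 with e1 | e1 | e1 <;>
        rcases e2 with e2 | e2 | e2 <;> rw [e0, e1, e2] at h <;> simp only [v0, v1, v2] at h <;>
        first | (exfalso; omega) | (rw [e0, e1, e2]; simp) | (exfalso; exact not3 ⟨e0, e1, e2⟩)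
    · rcases e0 with e0 | e0 | e0 <;> rcases e1 with e1 | e1 | e1 <;>
        rcases e2 with e2 | e2 | e2 <;> rw [e0, e1, e2] at h ⊢ <;>
        simp only [v0, v1, v2] at h ⊢ <;>
        first | (exfalso; omega) | omega | (exfalso; exact not3 ⟨e0, e1, e2⟩)
  · obtain ⟨p0, r0⟩ := cost3 (b 0)
    obtain ⟨p1, r1⟩ := cost3 (b 1)
    obtain ⟨p2, r2⟩ := cost3 (b 2)
    norm_num at h
    refine ⟨Or.inr (Or.inr (Or.inl ⟨rfl, fun i => ?_⟩)), by norm_num; omega⟩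
    fin_cases i
    · exact r0 (by omega)
    · exact r1 (by omega)
    · exact r2 (by omega)
  · obtain ⟨p0, r0⟩ := cost4 (b 0)
    obtain ⟨p1, r1⟩ := cost4 (b 1)
    obtain ⟨p2, r2⟩ := cost4 (b 2)
    norm_num at h
    refine ⟨Or.inr (Or.inr (Or.inr ⟨rfl, fun i => ?_⟩)), by norm_num; omega⟩
    fin_cases i
    · exact r0 (by omega)
    · exact r1 (by omega)
    · exact r2 (by omega)

/-- The point `y` is normalised. -/
structure Norm (y : HPt 3) : Prop where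
  nn_ge : 1 ≤ 4 * nn y
  u_nonneg : ∀ i, 0 ≤ y.u i
  u_le : ∀ i, 4 * y.u i ≤ 1

theorem cls {A : Au} {g : Equiv.Perm (HPt 3)} (hg : (A, g) ∈ GG) {y : HPt 3} (hy : g y = y)
    (hn : Norm y) (hk : 1 ≤ (A inf).2.2) :
    Typ (A inf).2.2 (A inf).2.1 ∧ 4 * nn y = 1 ∧ ∀ i, (A inf).2.1 i ≠ 0 → 4 * y.u i = 1 := by
  set k := (A inf).2.2 with hkdef
  set b := (A inf).2.1 with hb
  set a := (A inf).1 with ha
  have hab : b 0 ^ 2 + b 1 ^ 2 + b 2 ^ 2 = a * k := by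
    have := f_cusp ⟨A, hg.1⟩
    change f (A inf) = 0 at this
    simp only [f, ip] at this
    rw [← hb, ← hkdef, ← ha] at this
    linarith
  have ht := y.pos
  have e1 := hg.2.1 inf y
  change h (A inf) (g y) = h inf y at e1
  rw [hy, h_inf] at e1
  have e2 : h (A inf) y = ((a : ℝ) - 4 * ((b 0 : ℝ) * y.u 0 + (b 1 : ℝ) * y.u 1 +
      (b 2 : ℝ) * y.u 2) + 4 * (k : ℝ) * nn y) / (2 * y.t) := rfl
  rw [e2] at e1
  have e3 : (a : ℝ) - 4 * ((b 0 : ℝ) * y.u 0 + (b 1 : ℝ) * y.u 1 + (b 2 : ℝ) * y.u 2) +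
      4 * (k : ℝ) * nn y = 1 := by
    have h2t : (2 * y.t) ≠ 0 := by positivity
    field_simp at e1
    linarith
  have hk' : (1 : ℝ) ≤ k := by exact_mod_cast hk
  have hab' : (b 0 : ℝ) ^ 2 + (b 1 : ℝ) ^ 2 + (b 2 : ℝ) ^ 2 = a * k := by exact_mod_cast hab
  have hbm : ∀ i, (b i : ℝ) * (4 * y.u i) ≤ ((max (b i) 0 : ℤ) : ℝ) := by
    intro i
    have u0 := hn.u_nonneg i
    have u1 := hn.u_le i
    rcases le_total (b i) 0 with h | h
    · rw [max_eq_right h]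
      have h' : (b i : ℝ) ≤ 0 := by exact_mod_cast h
      push_cast
      nlinarith
    · rw [max_eq_left h]
      have h' : (0 : ℝ) ≤ (b i : ℝ) := by exact_mod_cast h
      nlinarith
  have b0 := hbm 0
  have b1 := hbm 1
  have b2 := hbm 2
  have hN := hn.nn_ge
  have main : (k : ℝ) * ((k : ℝ) * (4 * nn y) - k) + k * (((max (b 0) 0 : ℤ) : ℝ) - (b 0 : ℝ) * (4 * y.u 0))
      + k * (((max (b 1) 0 : ℤ) : ℝ) - (b 1 : ℝ) * (4 * y.u 1))
      + k * (((max (b 2) 0 : ℤ) : ℝ) - (b 2 : ℝ) * (4 * y.u 2)) =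
      ((k - k ^ 2 - (cost k (b 0) + cost k (b 1) + cost k (b 2)) : ℤ) : ℝ) := by
    simp only [cost]
    push_cast
    linear_combination (k : ℝ) * e3 + hab'
  have n0 : 0 ≤ (k : ℝ) * ((k : ℝ) * (4 * nn y) - k) := by
    have : 0 ≤ (k : ℝ) * (4 * nn y) - k := by nlinarith
    positivity
  have n1 : 0 ≤ (k : ℝ) * (((max (b 0) 0 : ℤ) : ℝ) - (b 0 : ℝ) * (4 * y.u 0)) :=
    mul_nonneg (by linarith) (by linarith)
  have n2 : 0 ≤ (k : ℝ) * (((max (b 1) 0 : ℤ) : ℝ) - (b 1 : ℝ) * (4 * y.u 1)) :=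
    mul_nonneg (by linarith) (by linarith)
  have n3 : 0 ≤ (k : ℝ) * (((max (b 2) 0 : ℤ) : ℝ) - (b 2 : ℝ) * (4 * y.u 2)) :=
    mul_nonneg (by linarith) (by linarith)
  have hle : cost k (b 0) + cost k (b 1) + cost k (b 2) ≤ k - k ^ 2 := by
    have : (0 : ℝ) ≤ ((k - k ^ 2 - (cost k (b 0) + cost k (b 1) + cost k (b 2)) : ℤ) : ℝ) := by
      rw [← main]; linarith
    have h2 : (0 : ℤ) ≤ k - k ^ 2 - (cost k (b 0) + cost k (b 1) + cost k (b 2)) := by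
      exact_mod_cast this
    linarith
  obtain ⟨ht1, ht2⟩ := typ_of_cost k a b hk hab hle
  have z : ((k - k ^ 2 - (cost k (b 0) + cost k (b 1) + cost k (b 2)) : ℤ) : ℝ) = 0 := by
    rw [ht2]; simp
  rw [z] at main
  have m0 : (k : ℝ) * ((k : ℝ) * (4 * nn y) - k) = 0 := by linarith
  have m1 : (k : ℝ) * (((max (b 0) 0 : ℤ) : ℝ) - (b 0 : ℝ) * (4 * y.u 0)) = 0 := by linarith
  have m2 : (k : ℝ) * (((max (b 1) 0 : ℤ) : ℝ) - (b 1 : ℝ) * (4 * y.u 1)) = 0 := by linarith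
  have m3 : (k : ℝ) * (((max (b 2) 0 : ℤ) : ℝ) - (b 2 : ℝ) * (4 * y.u 2)) = 0 := by linarith
  have hk0 : (k : ℝ) ≠ 0 := by linarith
  refine ⟨ht1, ?_, ?_⟩
  · have := (mul_eq_zero.mp m0).resolve_left hk0
    have h3 : (k : ℝ) * (4 * nn y - 1) = 0 := by linarith
    have := (mul_eq_zero.mp h3).resolve_left hk0
    linarith
  · intro i hi
    have hb0 : 0 ≤ b i := by
      rcases ht1 with ⟨_, h⟩ | ⟨_, h, _⟩ | ⟨_, h⟩ | ⟨_, h⟩ <;> have := h i <;> omega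
    have hm : ((max (b i) 0 : ℤ) : ℝ) = b i := by rw [max_eq_left hb0]
    have hbi : (b i : ℝ) ≠ 0 := by exact_mod_cast hi
    have mi : (k : ℝ) * (((max (b i) 0 : ℤ) : ℝ) - (b i : ℝ) * (4 * y.u i)) = 0 := by
      fin_cases i
      · exact m1
      · exact m2
      · exact m3
    have := (mul_eq_zero.mp mi).resolve_left hk0
    rw [hm] at this
    have h3 : (b i : ℝ) * (4 * y.u i - 1) = 0 := by linarith
    have := (mul_eq_zero.mp h3).resolve_left hbi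
    linarith

end QIG.KM
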