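import Pool.Agent.W_a51130_h62.Defs

/-!
MP_a51130_gt: the integral orthogonal group acting on hyperbolic 4-space, cusp at infinity.
The form is `|b|^2 - a c` on `Z x Z^3 x Z`; the point `(U, s)` of the upper half space (natural
coordinates, `U = 2 u`, `s = 2 t`) corresponds to the vector `(|U|^2 + s^2, U, 1) / s`.
-/

namespace QIG.KM

/-- Integer vectors `(a, b, c)`. -/
abbrev L : Type := ℤ × (Fin 3 → ℤ) × ℤ

/-- Automorphisms of the lattice. -/
abbrev Au : Type := L ≃ₗ[ℤ] L

/-- The standard inner product of `Z^3`. -/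
def ip (v w : Fin 3 → ℤ) : ℤ := v 0 * w 0 + v 1 * w 1 + v 2 * w 2

/-- The quadratic form. -/
def f (z : L) : ℤ := ip z.2.1 z.2.1 - z.1 * z.2.2

/-- The sign changes. -/
abbrev Sg : Type := Fin 3 → ℤˣ

/-- Action of sign changes on `Z^3`. -/
def sm (d : Sg) (v : Fin 3 → ℤ) : Fin 3 → ℤ := fun i => (d i : ℤ) * v i

theorem sq_unit (u : ℤˣ) : (u : ℤ) * (u : ℤ) = 1 := by
  rcases Int.units_eq_one_or u with h | h <;> rw [h] <;> norm_num

/-- Translations (parabolic elements fixing the cusp at infinity). -/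
def T (v : Fin 3 → ℤ) : Au where
  toFun z := (z.1 + 2 * ip v z.2.1 + ip v v * z.2.2, fun i => z.2.1 i + v i * z.2.2, z.2.2)
  invFun z := (z.1 - 2 * ip v z.2.1 + ip v v * z.2.2, fun i => z.2.1 i - v i * z.2.2, z.2.2)
  left_inv z := by
    refine Prod.ext ?_ (Prod.ext ?_ rfl)
    · simp only [ip]; ring
    · funext i; simp
  right_inv z := by
    refine Prod.ext ?_ (Prod.ext ?_ rfl)
    · simp only [ip]; ring
    · funext i; simp
  map_add' z w := by
    refine Prod.ext ?_ (Prod.ext ?_ rfl)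
    · simp only [ip, Prod.fst_add, Prod.snd_add, Pi.add_apply]; ring
    · funext i; simp only [Prod.fst_add, Prod.snd_add, Pi.add_apply]; ring
  map_smul' k z := by
    refine Prod.ext ?_ (Prod.ext ?_ rfl)
    · simp only [ip, Prod.smul_fst, Prod.smul_snd, Pi.smul_apply, smul_eq_mul, RingHom.id_apply]
      ring
    · funext i
      simp only [Prod.smul_fst, Prod.smul_snd, Pi.smul_apply, smul_eq_mul, RingHom.id_apply]
      ring

/-- Sign changes of the coordinates. -/
def Dg (d : Sg) : Au where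
  toFun z := (z.1, sm d z.2.1, z.2.2)
  invFun z := (z.1, sm d z.2.1, z.2.2)
  left_inv z := by
    refine Prod.ext rfl (Prod.ext ?_ rfl)
    funext i; simp only [sm]; rw [← mul_assoc, sq_unit, one_mul]
  right_inv z := by
    refine Prod.ext rfl (Prod.ext ?_ rfl)
    funext i; simp only [sm]; rw [← mul_assoc, sq_unit, one_mul]
  map_add' z w := by
    refine Prod.ext rfl (Prod.ext ?_ rfl)
    funext i; simp only [sm, Prod.fst_add, Prod.snd_add, Pi.add_apply]; ring
  map_smul' k z := by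
    refine Prod.ext rfl (Prod.ext ?_ rfl)
    funext i
    simp only [sm, Prod.smul_fst, Prod.smul_snd, Pi.smul_apply, smul_eq_mul, RingHom.id_apply]
    ring

/-- The inversion (central symmetry at the point `(0, 1)` in natural coordinates). -/
def S : Au where
  toFun z := (z.2.2, fun i => - z.2.1 i, z.1)
  invFun z := (z.2.2, fun i => - z.2.1 i, z.1)
  left_inv z := by
    refine Prod.ext rfl (Prod.ext ?_ rfl)
    funext i; simp
  right_inv z := by
    refine Prod.ext rfl (Prod.ext ?_ rfl)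
    funext i; simp
  map_add' z w := by
    refine Prod.ext rfl (Prod.ext ?_ rfl)
    funext i; simp only [Prod.fst_add, Prod.snd_add, Pi.add_apply]; ring
  map_smul' k z := by
    refine Prod.ext rfl (Prod.ext ?_ rfl)
    funext i
    simp only [Prod.smul_fst, Prod.smul_snd, Pi.smul_apply, smul_eq_mul, RingHom.id_apply]
    ring

@[simp] theorem T_apply (v : Fin 3 → ℤ) (z : L) : T v z =
    (z.1 + 2 * ip v z.2.1 + ip v v * z.2.2, fun i => z.2.1 i + v i * z.2.2, z.2.2) := rfl
@[simp] theorem Dg_apply (d : Sg) (z : L) : Dg d z = (z.1, sm d z.2.1, z.2.2) := rfl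
@[simp] theorem S_apply (z : L) : S z = (z.2.2, fun i => - z.2.1 i, z.1) := rfl

/-- The cusp at infinity. -/
def inf : L := (1, 0, 0)

/-- The cusp at the integral point `v` (natural coordinates). -/
def pt (v : Fin 3 → ℤ) : L := (ip v v, v, 1)

/-- Positive vectors. -/
def pos (z : L) : Prop := 0 ≤ z.1 ∧ 0 ≤ z.2.2

theorem mul_inv_ap (A : Au) (z : L) : A (A⁻¹ z) = z := by
  rw [← LinearEquiv.mul_apply, mul_inv_cancel, LinearEquiv.coe_one, id]

theorem inv_mul_ap (A : Au) (z : L) : A⁻¹ (A z) = z := by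
  rw [← LinearEquiv.mul_apply, inv_mul_cancel, LinearEquiv.coe_one, id]

/-- The group: automorphisms of the lattice preserving the form and the positive cone, and acting
trivially modulo `2` on the vectors `(even, b, even)`. -/
def G : Subgroup Au where
  carrier := {A | (∀ z, f (A z) = f z) ∧ (∀ z, f z = 0 → (pos (A z) ↔ pos z)) ∧
    ∀ z : L, Even z.1 → Even z.2.2 → ∃ w, A z = z + (w + w)}
  one_mem' := ⟨fun z => rfl, fun z _ => Iff.rfl, fun z _ _ => ⟨0, by simp⟩⟩
  mul_mem' := by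
    rintro A B ⟨hA1, hA2, hA3⟩ ⟨hB1, hB2, hB3⟩
    refine ⟨fun z => ?_, fun z hz => ?_, fun z h1 h2 => ?_⟩
    · rw [LinearEquiv.mul_apply, hA1, hB1]
    · rw [LinearEquiv.mul_apply, hA2 _ (by rw [hB1]; exact hz), hB2 z hz]
    · obtain ⟨w, hw⟩ := hB3 z h1 h2
      obtain ⟨w', hw'⟩ := hA3 z h1 h2
      refine ⟨w' + A w, ?_⟩
      rw [LinearEquiv.mul_apply, hw, map_add, map_add, hw']
      abel
  inv_mem' := by
    rintro A ⟨hA1, hA2, hA3⟩
    refine ⟨fun z => ?_, fun z hz => ?_, fun z h1 h2 => ?_⟩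
    · rw [← hA1 (A⁻¹ z), mul_inv_ap]
    · have h := hA2 (A⁻¹ z) (by rw [← hA1 (A⁻¹ z), mul_inv_ap]; exact hz)
      rw [mul_inv_ap] at h
      exact h.symm
    · obtain ⟨w, hw⟩ := hA3 z h1 h2
      refine ⟨- (A⁻¹ w), ?_⟩
      have h := congrArg (fun y => A⁻¹ y) hw
      simp only [map_add] at h
      rw [inv_mul_ap] at h
      have h3 : A⁻¹ z = z - (A⁻¹ w + A⁻¹ w) := eq_sub_iff_add_eq.mpr h.symm
      rw [h3]
      abel

theorem T_mem (v : Fin 3 → ℤ) : T v ∈ G := by
  have key : ∀ v z, f (T v z) = f z := by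
    intro v z
    simp only [f, T_apply, ip]
    ring
  have ps : ∀ v z, f z = 0 → pos z → pos (T v z) := by
    intro v z hz hp
    obtain ⟨h1, h2⟩ := hp
    refine ⟨?_, h2⟩
    simp only [f, ip] at hz
    simp only [T_apply, ip]
    rcases h2.eq_or_lt with h | h
    · have e0 : z.2.1 0 ^ 2 + z.2.1 1 ^ 2 + z.2.1 2 ^ 2 = 0 := by
        rw [← h] at hz; linarith [hz]
      have a0 : z.2.1 0 = 0 := by nlinarith [sq_nonneg (z.2.1 0), sq_nonneg (z.2.1 1), sq_nonneg (z.2.1 2)]
      have a1 : z.2.1 1 = 0 := by nlinarith [sq_nonneg (z.2.1 0), sq_nonneg (z.2.1 1), sq_nonneg (z.2.1 2)]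
      have a2 : z.2.1 2 = 0 := by nlinarith [sq_nonneg (z.2.1 0), sq_nonneg (z.2.1 1), sq_nonneg (z.2.1 2)]
      rw [a0, a1, a2, ← h]
      linarith
    · refine nonneg_of_mul_nonneg_right (a := z.2.2) ?_ h
      have e : z.2.2 * (z.1 + 2 * (v 0 * z.2.1 0 + v 1 * z.2.1 1 + v 2 * z.2.1 2) +
          (v 0 * v 0 + v 1 * v 1 + v 2 * v 2) * z.2.2) =
          (z.2.1 0 + v 0 * z.2.2) ^ 2 + (z.2.1 1 + v 1 * z.2.2) ^ 2 +
          (z.2.1 2 + v 2 * z.2.2) ^ 2 := by linear_combination -hz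
      rw [e]
      positivity
  refine ⟨key v, fun z hz => ⟨fun h => ?_, ps v z hz⟩, fun z h1 h2 => ?_⟩
  · have h' := ps (-v) (T v z) (by rw [key]; exact hz) h
    have e : T (-v) (T v z) = z := by
      refine Prod.ext ?_ (Prod.ext ?_ rfl)
      · simp only [T_apply, ip, Pi.neg_apply]; ring
      · funext i; simp
    rwa [e] at h'
  · obtain ⟨k, hk⟩ := h2
    refine ⟨(ip v z.2.1 + ip v v * k, fun i => v i * k, 0), ?_⟩
    refine Prod.ext ?_ (Prod.ext ?_ ?_)
    · simp only [T_apply, Prod.fst_add, hk]; ring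
    · funext i; simp only [T_apply, Prod.fst_add, Prod.snd_add, Pi.add_apply, hk]; ring
    · simp [T_apply]

theorem Dg_mem (d : Sg) : Dg d ∈ G := by
  refine ⟨fun z => ?_, fun z _ => Iff.rfl, fun z h1 h2 => ?_⟩
  · simp only [f, Dg_apply, ip, sm]
    linear_combination (z.2.1 0) ^ 2 * sq_unit (d 0) + (z.2.1 1) ^ 2 * sq_unit (d 1) +
      (z.2.1 2) ^ 2 * sq_unit (d 2)
  · refine ⟨(0, fun i => if d i = 1 then 0 else - z.2.1 i, 0), ?_⟩
    refine Prod.ext ?_ (Prod.ext ?_ ?_)
    · simp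
    · funext i
      simp only [Dg_apply, Prod.fst_add, Prod.snd_add, Pi.add_apply, sm]
      rcases Int.units_eq_one_or (d i) with h | h
      · rw [h]; simp
      · rw [h]; simp
    · simp

theorem S_mem : S ∈ G := by
  refine ⟨fun z => ?_, fun z _ => ?_, fun z h1 h2 => ?_⟩
  · simp only [f, S_apply, ip]
    ring
  · simp only [pos, S_apply]
    exact and_comm
  · obtain ⟨k, hk⟩ := h1
    obtain ⟨l, hl⟩ := h2
    refine ⟨(l - k, fun i => - z.2.1 i, k - l), ?_⟩
    refine Prod.ext ?_ (Prod.ext ?_ ?_)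
    · simp only [S_apply, Prod.fst_add, hk, hl]; ring
    · funext i; simp only [S_apply, Prod.fst_add, Prod.snd_add, Pi.add_apply]; ring
    · simp only [S_apply, Prod.snd_add, hk, hl]; ring

/-- Elements of the group `G`. -/
def TG (v : Fin 3 → ℤ) : G := ⟨T v, T_mem v⟩
def DG (d : Sg) : G := ⟨Dg d, Dg_mem d⟩
def SG : G := ⟨S, S_mem⟩

/-- The vectors `± e_i`. -/
def sg (i : Fin 3) (u : ℤˣ) : Fin 3 → ℤ := fun j => if j = i then (u : ℤ) else 0

/-- The rotation by `pi` about the axis `i`. -/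
def R (i : Fin 3) : Sg := fun j => if j = i then 1 else -1

/-- The data which define a homomorphism from `G` to `H`. -/
structure Rep (H : Type) [Group H] where
  t : (Fin 3 → ℤ) → H
  r : Sg → H
  s : H
  t_add : ∀ v w, t (v + w) = t v * t w
  r_mul : ∀ d e, r (d * e) = r d * r e
  rt : ∀ d v, r d * t v = t (sm d v) * r d
  ss : s * s = 1
  sr : ∀ d, s * r d = r d * s
  rel : ∀ i (u : ℤˣ), t (sg i u) * s = s * t (-sg i u) * s * r (R i) * t (-sg i u)

end QIG.KM
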