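import Pool.Agent.W_a51130_h68.KM.Hom

/-!
MP_a51130_gt: homomorphisms defined on `G`: the main induction.
-/

namespace QIG.KM

variable {H : Type} [Group H] (ρ : Rep H)

theorem dst_add_neg (A : G) (h : cc A ≠ 0) : 0 < cc A := by
  have := cc_nonneg A
  omega

/-- Moving towards the nearest point does not increase `N`. -/
theorem N_move_le {z : L} (hz : f z = 0) (hc : 0 < z.2.2) {m : Fin 3 → ℤ} {i : Fin 3} {u : ℤˣ}
    (hu : 1 ≤ (u : ℤ) * (near z i - m i)) : N z (m + sg i u) ≤ N z m := by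
  have h1 := N_move hz m i u
  obtain ⟨h2, h3⟩ := near_le hc i
  have h4 : z.2.2 ≤ 2 * u * (z.2.1 i - z.2.2 * m i) := by
    have e : 2 * (u : ℤ) * (z.2.1 i - z.2.2 * m i) =
        u * (2 * (z.2.1 i - z.2.2 * near z i)) + 2 * z.2.2 * (u * (near z i - m i)) := by ring
    rw [e]
    have h5 : -z.2.2 ≤ (u : ℤ) * (2 * (z.2.1 i - z.2.2 * near z i)) := by
      rcases Int.units_eq_one_or u with h | h <;> rw [h] <;> simp <;> linarith
    nlinarith
  nlinarith

theorem N_pos_of_ne {z : L} (hz : f z = 0) (hc : 0 < z.2.2) {m : Fin 3 → ℤ} {i : Fin 3}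
    (h : m i ≠ near z i) : 0 < N z m := by
  rcases (N_nonneg hz hc m).lt_or_eq with h1 | h1
  · exact h1
  exfalso
  have h2 := N_mul hz m
  rw [← h1, mul_zero] at h2
  have h3 : ∀ j, z.2.1 j - z.2.2 * m j = 0 := by
    intro j
    fin_cases j
    · change z.2.1 0 - z.2.2 * m 0 = 0
      nlinarith [sq_nonneg (z.2.1 0 - z.2.2 * m 0), sq_nonneg (z.2.1 1 - z.2.2 * m 1),
        sq_nonneg (z.2.1 2 - z.2.2 * m 2)]
    · change z.2.1 1 - z.2.2 * m 1 = 0
      nlinarith [sq_nonneg (z.2.1 0 - z.2.2 * m 0), sq_nonneg (z.2.1 1 - z.2.2 * m 1),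
        sq_nonneg (z.2.1 2 - z.2.2 * m 2)]
    · change z.2.1 2 - z.2.2 * m 2 = 0
      nlinarith [sq_nonneg (z.2.1 0 - z.2.2 * m 0), sq_nonneg (z.2.1 1 - z.2.2 * m 1),
        sq_nonneg (z.2.1 2 - z.2.2 * m 2)]
  obtain ⟨h4, h5⟩ := near_le hc i
  have h6 := h3 i
  apply h
  have h7 : z.2.1 i = z.2.2 * m i := by linarith
  rw [h7] at h4 h5
  have h8 : -1 < 2 * (m i - near z i) + 0 ∨ True := Or.inr trivial
  have h9 : -z.2.2 ≤ z.2.2 * (2 * (m i - near z i)) := by linarith
  have h10 : z.2.2 * (2 * (m i - near z i)) < z.2.2 := by linarith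
  have h11 : 2 * (m i - near z i) < 1 := by nlinarith
  have h12 : -1 ≤ 2 * (m i - near z i) := by nlinarith
  omega

/-- The induction hypothesis at level `n`. -/
def Lev (n : ℤ) : Prop := ∀ A : G, cc A = n →
  (∀ m, n ≠ 0 → N (A.1 inf) m < n → St ρ A m) ∧ Eq' ρ A ∧
  (∀ m, n ≠ 0 → N (A.1 inf) m = n → St ρ A m)

theorem lev_a {n : ℤ} (hn : 0 < n) (ih : ∀ k, 0 ≤ k → k < n → Lev ρ k) :
    ∀ A : G, cc A = n → ∀ k : ℕ, ∀ m, dst m (near (A.1 inf)) = k → N (A.1 inf) m < n →
      St ρ A m := by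
  intro A hA k
  induction k using Nat.strong_induction_on with
  | _ k IH =>
  intro m hk hN
  have hc : 0 < (A.1 inf).2.2 := by
    change 0 < cc A
    omega
  have hf := f_cusp A
  by_cases hm : m = near (A.1 inf)
  · subst hm
    exact phi_step ρ A (by omega)
  · have hex : ∃ i, m i ≠ near (A.1 inf) i := by
      by_contra hcon
      push Not at hcon
      exact hm (funext hcon)
    obtain ⟨i, hi⟩ := hex
    obtain ⟨u, hu1, hu2⟩ := dst_move hi
    have hle := N_move_le hf hc hu2
    have hpos := N_pos_of_ne hf hc hi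
    have s1 := IH _ (by rw [← hk]; exact hu1) (m + sg i u) rfl (by omega)
    refine tri ρ A m i u s1 ?_ ?_
    · have c1 : cc (SG * TG (-m) * A) = N (A.1 inf) m := cc_step A m
      have c2 : N ((SG * TG (-m) * A).1 inf) (-sg i u) = N (A.1 inf) (m + sg i u) := by
        rw [← cc_step, ← cc_step, neg_neg]
        have e : SG * TG (sg i u) * (SG * TG (-m) * A) =
            DG (R i) * (TG (-sg i u) * (SG * TG (-(m + sg i u)) * A)) := by
          have e1 : SG * TG (sg i u) * (SG * TG (-m) * A) =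
              (SG * TG (sg i u) * SG) * TG (-m) * A := by simp only [mul_assoc]
          rw [e1, rel_G]
          have e2 : TG (-(m + sg i u)) = TG (-sg i u) * TG (-m) := by
            rw [← TG_add]; congr 1; abel
          rw [e2]
          simp only [mul_assoc]
        rw [e]
        rfl
      have L1 := ih (N (A.1 inf) m) (by omega) hN _ c1
      rcases hle.lt_or_eq with h | h
      · exact L1.1 _ (by omega) (by rw [c2]; exact h)
      · exact L1.2.2 _ (by omega) (by rw [c2]; exact h)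
    · have c3 : cc (TG (-sg i u) * (SG * TG (-(m + sg i u)) * A)) = N (A.1 inf) (m + sg i u) := by
        rw [cc_TG_mul, cc_step]
      exact (ih _ (N_nonneg hf hc _) (by omega) _ c3).2.1

theorem ip_sm (d : Sg) (v w : Fin 3 → ℤ) : ip (sm d v) (sm d w) = ip v w := by
  simp only [ip, sm]
  linear_combination (v 0 * w 0) * sq_unit (d 0) + (v 1 * w 1) * sq_unit (d 1) +
    (v 2 * w 2) * sq_unit (d 2)

theorem lev_all : ∀ n : ℕ, Lev ρ n := by
  intro n
  induction n using Nat.strong_induction_on with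
  | _ n IH =>
  have ih : ∀ k : ℤ, 0 ≤ k → k < n → Lev ρ k := by
    intro k h0 h1
    have := IH k.toNat (by omega)
    rwa [Int.toNat_of_nonneg h0] at this
  intro A hA
  have hf := f_cusp A
  by_cases hn : (n : ℤ) = 0
  · refine ⟨fun m h => absurd hn h, ?_, fun m h => absurd hn h⟩
    intro d
    obtain ⟨w, d', rfl⟩ := base A (by rw [hA]; exact hn)
    rw [← mul_assoc, DG_TG, mul_assoc, ← DG_mul, phi_TD, phi_TD, ρ.r_mul, ← mul_assoc, ← mul_assoc,
      ρ.rt]
  have hpos : (0 : ℤ) < n := by omega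
  have hc : 0 < (A.1 inf).2.2 := by
    change 0 < cc A
    omega
  have a := lev_a ρ hpos ih
  refine ⟨fun m _ hN => a A hA _ m rfl hN, ?_, ?_⟩
  · intro d
    have hN : N (A.1 inf) (near (A.1 inf)) < n := by
      rw [← hA]; exact N_near hf hc
    have e1 : N ((DG d * A).1 inf) (sm d (near (A.1 inf))) = N (A.1 inf) (near (A.1 inf)) := by
      change (A.1 inf).1 - 2 * ip (sm d _) (sm d _) + ip (sm d _) (sm d _) * (A.1 inf).2.2 = _
      rw [ip_sm, ip_sm]
      rfl
    have s1 := a (DG d * A) hA _ (sm d (near (A.1 inf))) rfl (by rw [e1]; exact hN)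
    unfold St at s1
    have e2 : SG * TG (-sm d (near (A.1 inf))) * (DG d * A) =
        DG d * (SG * TG (-near (A.1 inf)) * A) := by
      have e3 : -sm d (near (A.1 inf)) = sm d (-near (A.1 inf)) := by
        funext j; simp [sm]
      rw [e3]
      have e4 : SG * TG (sm d (-near (A.1 inf))) * (DG d * A) =
          SG * (TG (sm d (-near (A.1 inf))) * DG d) * A := by simp only [mul_assoc]
      rw [e4, ← DG_TG]
      have e5 : SG * (DG d * TG (-near (A.1 inf))) * A =
          (SG * DG d) * TG (-near (A.1 inf)) * A := by simp only [mul_assoc]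
      rw [e5, SG_DG]
      simp only [mul_assoc]
    rw [e2] at s1
    have c1 : cc (SG * TG (-near (A.1 inf)) * A) = N (A.1 inf) (near (A.1 inf)) := cc_step _ _
    have L1 := (ih _ (N_nonneg hf hc _) hN _ c1).2.1 d
    rw [s1, L1, phi_step ρ A (by omega)]
    have e6 : ρ.t (sm d (near (A.1 inf))) * ρ.s * (ρ.r d * phi ρ (SG * TG (-near (A.1 inf)) * A)) =
        ρ.t (sm d (near (A.1 inf))) * (ρ.s * ρ.r d) * phi ρ (SG * TG (-near (A.1 inf)) * A) := by
      simp only [mul_assoc]
    rw [e6, ρ.sr]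
    have e7 : ρ.t (sm d (near (A.1 inf))) * (ρ.r d * ρ.s) *
        phi ρ (SG * TG (-near (A.1 inf)) * A) =
        (ρ.t (sm d (near (A.1 inf))) * ρ.r d) * ρ.s *
        phi ρ (SG * TG (-near (A.1 inf)) * A) := by simp only [mul_assoc]
    rw [e7, ← ρ.rt]
    simp only [mul_assoc]
  · intro m _ hN
    have hNm := N_mul hf m
    have hcn : (A.1 inf).2.2 = n := hA
    rw [hN, hcn] at hNm
    have hex : ∃ i, (n : ℤ) ^ 2 < 4 * ((A.1 inf).2.1 i - n * m i) ^ 2 := by
      by_contra hcon
      push Not at hcon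
      have c0 := hcon 0
      have c1 := hcon 1
      have c2 := hcon 2
      nlinarith
    obtain ⟨i, hi⟩ := hex
    obtain ⟨u, hu⟩ : ∃ u : ℤˣ, (n : ℤ) < 2 * u * ((A.1 inf).2.1 i - n * m i) := by
      rcases le_or_gt 0 ((A.1 inf).2.1 i - n * m i) with h | h
      · refine ⟨1, ?_⟩
        simp only [Units.val_one]
        nlinarith
      · refine ⟨-1, ?_⟩
        simp only [Units.val_neg, Units.val_one]
        nlinarith
    have hmv := N_move hf m i u
    rw [hcn, hN] at hmv
    have hlt : N (A.1 inf) (m + sg i u) < n := by nlinarith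
    have s1 := a A hA _ (m + sg i u) rfl hlt
    refine tri ρ A m i u s1 ?_ ?_
    · have c1 : cc (SG * TG (-m) * A) = n := by rw [cc_step, hN]
      refine a _ c1 _ _ rfl ?_
      have e : SG * TG (sg i u) * (SG * TG (-m) * A) =
            DG (R i) * (TG (-sg i u) * (SG * TG (-(m + sg i u)) * A)) := by
        have e1 : SG * TG (sg i u) * (SG * TG (-m) * A) =
            (SG * TG (sg i u) * SG) * TG (-m) * A := by simp only [mul_assoc]
        rw [e1, rel_G]
        have e2 : TG (-(m + sg i u)) = TG (-sg i u) * TG (-m) := by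
          rw [← TG_add]; congr 1; abel
        rw [e2]
        simp only [mul_assoc]
      rw [← cc_step, neg_neg, e, cc_DG_mul, cc_TG_mul, cc_step]
      exact hlt
    · have c3 : cc (TG (-sg i u) * (SG * TG (-(m + sg i u)) * A)) = N (A.1 inf) (m + sg i u) := by
        rw [cc_TG_mul, cc_step]
      exact (ih _ (N_nonneg hf hc _) hlt _ c3).2.1

theorem lev (A : G) : Lev ρ (cc A) := by
  have := lev_all ρ (cc A).toNat
  rwa [Int.toNat_of_nonneg (cc_nonneg A)] at this

theorem phi_D (d : Sg) (A : G) : phi ρ (DG d * A) = ρ.r d * phi ρ A :=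
  (lev ρ A A rfl).2.1 d

theorem N_zero (z : L) : N z 0 = z.1 := by simp [N, ip]

theorem cc_SG (A : G) : cc (SG * A) = (A.1 inf).1 := rfl

theorem phi_S_aux (A : G) (h : (A.1 inf).1 ≤ cc A) : phi ρ (SG * A) = ρ.s * phi ρ A := by
  have h0 : cc A ≠ 0 := by
    intro h0
    have hp := (pos_cusp A).1
    obtain ⟨v, d, rfl⟩ := base A h0
    have e : (((TG v * DG d : G)).1 inf).1 = 1 := by
      change (T v (Dg d inf)).1 = 1
      simp [inf, ip, sm]
    rw [e, h0] at h
    omega
  have st : St ρ A 0 := by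
    rcases h.lt_or_eq with h | h
    · exact (lev ρ A A rfl).1 0 h0 (by rw [N_zero]; exact h)
    · exact (lev ρ A A rfl).2.2 0 h0 (by rw [N_zero]; exact h)
  unfold St at st
  have t0 : ρ.t 0 = 1 := by
    have h := ρ.t_add 0 0
    rw [add_zero] at h
    exact left_eq_mul.mp h
  rw [neg_zero, TG_zero, mul_one, t0, one_mul] at st
  rw [st, ← mul_assoc, ρ.ss, one_mul]

theorem phi_S (A : G) : phi ρ (SG * A) = ρ.s * phi ρ A := by
  rcases le_total (A.1 inf).1 (cc A) with h | h
  · exact phi_S_aux ρ A h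
  · have h1 := phi_S_aux ρ (SG * A) (by
      change (A.1 inf).2.2 ≤ (A.1 inf).1
      exact h)
    rw [← mul_assoc, SG_SG, one_mul] at h1
    rw [h1, ← mul_assoc, ρ.ss, one_mul]

theorem phi_mul (A B : G) : phi ρ (A * B) = phi ρ A * phi ρ B := by
  have key : ∀ n : ℕ, ∀ A : G, (cc A).toNat = n → ∀ B, phi ρ (A * B) = phi ρ A * phi ρ B := by
    intro n
    induction n using Nat.strong_induction_on with
    | _ n IH =>
    intro A hA B
    by_cases h : cc A = 0
    · obtain ⟨v, d, rfl⟩ := base A h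
      rw [mul_assoc, phi_T, phi_D, phi_TD, mul_assoc]
    · have e : A * B = TG (near (A.1 inf)) * (SG * ((SG * TG (-near (A.1 inf)) * A) * B)) := by
        have e1 : TG (near (A.1 inf)) * (SG * ((SG * TG (-near (A.1 inf)) * A) * B)) =
            TG (near (A.1 inf)) * ((SG * SG) * (TG (-near (A.1 inf)) * (A * B))) := by
          simp only [mul_assoc]
        rw [e1, SG_SG, one_mul, ← mul_assoc, ← TG_add, add_neg_cancel, TG_zero, one_mul]
      rw [e, phi_T, phi_S, IH _ (by rw [← hA]; exact cc_step_lt A h) _ rfl, phi_step ρ A h]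
      simp only [mul_assoc]
  exact key _ A rfl B

/-- The homomorphism. -/
noncomputable def Phi : G →* H := MonoidHom.mk' (phi ρ) (phi_mul ρ)

theorem Phi_T (v : Fin 3 → ℤ) : Phi ρ (TG v) = ρ.t v := by
  change phi ρ (TG v) = _
  have h := phi_TD ρ v 1
  have r1 : ρ.r 1 = 1 := by
    have h := ρ.r_mul 1 1
    rw [mul_one] at h
    exact left_eq_mul.mp h
  have d1 : DG 1 = 1 := by
    have h := DG_mul 1 1
    rw [mul_one] at h
    exact left_eq_mul.mp h
  rw [d1, mul_one, r1, mul_one] at h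
  exact h

theorem Phi_D (d : Sg) : Phi ρ (DG d) = ρ.r d := by
  have h := phi_TD ρ 0 d
  have t0 : ρ.t 0 = 1 := by
    have h := ρ.t_add 0 0
    rw [add_zero] at h
    exact left_eq_mul.mp h
  rw [TG_zero, one_mul, t0, one_mul] at h
  exact h

theorem Phi_S : Phi ρ SG = ρ.s := by
  have h := phi_S ρ 1
  have h1 : phi ρ (1 : G) = 1 := map_one (Phi ρ)
  rw [mul_one, h1, mul_one] at h
  exact h

end QIG.KM
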