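import Pool.Agent.W_a51130_h68.KM.Chk

/-!
MP_a51130_gt: the permutation representation of `G` on `X = Sg x B`.
-/

namespace QIG.KM

/-- The finite set. -/
abbrev X : Type := Sg × B

theorem sg_sq (d : Sg) : d * d = 1 := by
  funext i
  simp only [Pi.mul_apply, Pi.one_apply]
  rcases Int.units_eq_one_or (d i) with h | h <;> rw [h] <;> simp

theorem sm_sm (d e : Sg) (v : Fin 3 → ℤ) : sm d (sm e v) = sm (d * e) v := by
  funext i
  simp only [sm, Pi.mul_apply, Units.val_mul]
  ring

theorem sm_add (d : Sg) (v w : Fin 3 → ℤ) : sm d (v + w) = sm d v + sm d w := by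
  funext i
  simp only [sm, Pi.add_apply]
  ring

theorem sm_neg (d : Sg) (v : Fin 3 → ℤ) : sm d (-v) = -sm d v := by
  funext i
  simp only [sm, Pi.neg_apply]
  ring

theorem sm_one (v : Fin 3 → ℤ) : sm 1 v = v := by
  funext i
  simp [sm]

/-- Translations on `X`. -/
def tX (v : Fin 3 → ℤ) : Equiv.Perm X where
  toFun x := (x.1, x.2 + q (sm x.1 v))
  invFun x := (x.1, x.2 - q (sm x.1 v))
  left_inv x := by simp
  right_inv x := by simp

/-- Sign changes on `X`. -/
def rX (d : Sg) : Equiv.Perm X where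
  toFun x := (d * x.1, x.2)
  invFun x := (d * x.1, x.2)
  left_inv x := by
    refine Prod.ext ?_ rfl
    change d * (d * x.1) = x.1
    rw [← mul_assoc, sg_sq, one_mul]
  right_inv x := by
    refine Prod.ext ?_ rfl
    change d * (d * x.1) = x.1
    rw [← mul_assoc, sg_sq, one_mul]

theorem sX_aux (x : X) : (x.1 * vb x.2 * vb (tau x.2), tau (tau x.2)) = x := by
  obtain ⟨h1, h2⟩ := tau_tau x.2
  refine Prod.ext ?_ h1
  change x.1 * vb x.2 * vb (tau x.2) = x.1
  rw [h2, mul_assoc, sg_sq, mul_one]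

/-- The inversion on `X`. -/
def sX : Equiv.Perm X where
  toFun x := (x.1 * vb x.2, tau x.2)
  invFun x := (x.1 * vb x.2, tau x.2)
  left_inv x := sX_aux x
  right_inv x := sX_aux x

theorem tX_apply (v : Fin 3 → ℤ) (x : X) : tX v x = (x.1, x.2 + q (sm x.1 v)) := rfl
theorem rX_apply (d : Sg) (x : X) : rX d x = (d * x.1, x.2) := rfl
theorem sX_apply (x : X) : sX x = (x.1 * vb x.2, tau x.2) := rfl

theorem sm_sg (e : Sg) (i : Fin 3) (u : ℤˣ) : sm e (sg i u) = sg i (e i * u) := by
  funext j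
  by_cases hj : j = i
  · subst hj; simp [sm, sg]
  · simp [sm, sg, hj]

theorem q_sg (i : Fin 3) (u : ℤˣ) : q (sg i u) = un i u := by
  have e2 : ∀ u : ℤˣ, (((u : ℤ)) : ZMod 2) = 1 := by decide
  fin_cases i
  · refine Prod.ext ?_ (Prod.ext ?_ ?_)
    · change (((u : ℤ)) : ZMod 2) = 1
      exact e2 u
    · change (((0 : ℤ)) : ZMod 2) = 0
      simp
    · change (((0 : ℤ)) : ZMod 24) = 0
      simp
  · refine Prod.ext ?_ (Prod.ext ?_ ?_)
    · change (((0 : ℤ)) : ZMod 2) = 0
      simp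
    · change (((u : ℤ)) : ZMod 2) = 1
      exact e2 u
    · change (((0 : ℤ)) : ZMod 24) = 0
      simp
  · refine Prod.ext ?_ (Prod.ext ?_ ?_)
    · change (((0 : ℤ)) : ZMod 2) = 0
      simp
    · change (((0 : ℤ)) : ZMod 2) = 0
      simp
    · change (((u : ℤ)) : ZMod 24) = if u = 1 then 1 else -1
      rcases Int.units_eq_one_or u with h | h <;> rw [h] <;> simp

theorem R_sg (i : Fin 3) : R i i = 1 := by simp [R]

/-- The permutation representation data. -/
def rep : Rep (Equiv.Perm X) where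
  t := tX
  r := rX
  s := sX
  t_add v w := by
    apply Equiv.ext
    intro x
    rw [Equiv.Perm.mul_apply, tX_apply, tX_apply, tX_apply]
    refine Prod.ext rfl ?_
    change x.2 + q (sm x.1 (v + w)) = x.2 + q (sm x.1 w) + q (sm x.1 v)
    rw [sm_add, map_add]
    abel
  r_mul d e := by
    apply Equiv.ext
    intro x
    rw [Equiv.Perm.mul_apply, rX_apply, rX_apply, rX_apply]
    refine Prod.ext ?_ rfl
    change d * e * x.1 = d * (e * x.1)
    rw [mul_assoc]
  rt d v := by
    apply Equiv.ext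
    intro x
    rw [Equiv.Perm.mul_apply, Equiv.Perm.mul_apply, rX_apply, rX_apply, tX_apply, tX_apply]
    refine Prod.ext rfl ?_
    change x.2 + q (sm x.1 v) = x.2 + q (sm (d * x.1) (sm d v))
    rw [sm_sm]
    congr 3
    rw [mul_comm d x.1, mul_assoc, sg_sq, mul_one]
  ss := by
    apply Equiv.ext
    intro x
    exact sX_aux x
  sr d := by
    apply Equiv.ext
    intro x
    rw [Equiv.Perm.mul_apply, Equiv.Perm.mul_apply, rX_apply, rX_apply, sX_apply, sX_apply]
    refine Prod.ext ?_ rfl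
    change d * x.1 * vb x.2 = d * (x.1 * vb x.2)
    rw [mul_assoc]
  rel i u := by
    apply Equiv.ext
    intro x
    simp only [Equiv.Perm.mul_apply, tX_apply, sX_apply, rX_apply]
    have h := fin_rel x.2 i (x.1 i * u)
    obtain ⟨h1, h2⟩ := h
    set b1 := x.2 - un i (x.1 i * u) with hb1
    have e1 : x.2 + q (sm x.1 (-sg i u)) = b1 := by
      rw [sm_neg, map_neg, sm_sg, q_sg, hb1, sub_eq_add_neg]
    rw [e1]
    have e2 : q (sm (R i * x.1 * vb b1) (-sg i u)) = - un i (vb b1 i * (x.1 i * u)) := by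
      rw [sm_neg, map_neg, sm_sg, q_sg]
      congr 2
      simp only [Pi.mul_apply, R_sg, one_mul]
      rw [mul_comm (x.1 i) (vb b1 i), mul_assoc]
    rw [e2, ← sub_eq_add_neg]
    have e3 : q (sm (x.1 * vb x.2) (sg i u)) = un i (vb x.2 i * (x.1 i * u)) := by
      rw [sm_sg, q_sg]
      congr 1
      simp only [Pi.mul_apply]
      rw [mul_comm (x.1 i) (vb x.2 i), mul_assoc]
    rw [e3]
    refine Prod.ext ?_ h2
    change x.1 * vb x.2 = R i * x.1 * vb b1 * vb (tau b1 - un i (vb b1 i * (x.1 i * u)))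
    rw [h1, mul_comm (R i) x.1]
    simp only [mul_assoc]

/-- First check. -/
theorem chk1 (x : X) (d : Sg) (m : Fin 3 → Bool) (hm : ∀ i, m i = true → d i = 1) :
    sX (rX d (tX (-ind m) x)) ≠ x := by
  intro h
  rw [tX_apply, rX_apply, sX_apply] at h
  have h1 := congrArg Prod.fst h
  have h2 := congrArg Prod.snd h
  change d * x.1 * vb (x.2 + q (sm x.1 (-ind m))) = x.1 at h1
  change tau (x.2 + q (sm x.1 (-ind m))) = x.2 at h2
  rw [sm_neg, map_neg, q_ind, ← sub_eq_add_neg] at h1 h2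
  set b := x.2 - qa m x.1 with hb
  have hd : vb b = d := by
    have e : d * (x.1 * (d * x.1 * vb b)) = d * (x.1 * x.1) := by rw [h1]
    have e2 : d * (x.1 * (d * x.1 * vb b)) = (d * d) * (x.1 * x.1) * vb b := by
      simp only [mul_assoc, mul_left_comm, mul_comm]
    rw [e2, sg_sq, sg_sq, one_mul, one_mul, mul_one] at e
    exact e
  refine fin1 b x.1 m (fun i hi => ?_) ?_
  · rw [hd]; exact hm i hi
  · rw [h2, hb]; abel

theorem mm_eq (a : Fin 3 → Bool) (d : Sg) (m : Fin 3 → Bool)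
    (ha : ((a 0 && a 1) || (a 0 && a 2) || (a 1 && a 2)) = true)
    (h : ∀ i, (a i = true → (m i = true ↔ d i = 1)) ∧ (a i = false → m i = true → d i = -1)) :
    ∃ c, m = mm a d c := by
  refine ⟨(!(a 0) && m 0) || (!(a 1) && m 1) || (!(a 2) && m 2), ?_⟩
  have key : ∀ a0 a1 a2 m0 m1 m2 : Bool, ∀ u : ℤˣ,
      ((a0 && a1) || (a0 && a2) || (a1 && a2)) = true →
      (a0 = true → (m0 = true ↔ u = 1)) → (a0 = false → m0 = true → u = -1) →
      m0 = if a0 then decide (u = 1) else
        (((!a0 && m0) || (!a1 && m1) || (!a2 && m2)) && decide (u = -1)) := by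
    decide
  funext i
  fin_cases i
  · exact key (a 0) (a 1) (a 2) (m 0) (m 1) (m 2) (d 0) ha (h 0).1 (h 0).2
  · have := key (a 1) (a 0) (a 2) (m 1) (m 0) (m 2) (d 1)
      (by revert ha; cases a 0 <;> cases a 1 <;> cases a 2 <;> simp) (h 1).1 (h 1).2
    refine this.trans ?_
    change _ = if a 1 then _ else _
    congr 2
    cases a 0 <;> cases a 1 <;> cases a 2 <;> cases m 0 <;> cases m 1 <;> cases m 2 <;> rfl
  · have := key (a 2) (a 0) (a 1) (m 2) (m 0) (m 1) (d 2)
      (by revert ha; cases a 0 <;> cases a 1 <;> cases a 2 <;> simp) (h 2).1 (h 2).2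
    refine this.trans ?_
    change _ = if a 2 then _ else _
    congr 2
    cases a 0 <;> cases a 1 <;> cases a 2 <;> cases m 0 <;> cases m 1 <;> cases m 2 <;> rfl

/-- Second check. -/
theorem chk2 (x : X) (d : Sg) (a m : Fin 3 → Bool)
    (ha : ((a 0 && a 1) || (a 0 && a 2) || (a 1 && a 2)) = true)
    (hm : ∀ i, (a i = true → (m i = true ↔ d i = 1)) ∧ (a i = false → m i = true → d i = -1)) :
    sX (tX (-ind a) (sX (rX d (tX (-ind m) x)))) ≠ x := by
  intro h
  obtain ⟨c, hc⟩ := mm_eq a d m ha hm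
  have hx : (tX (-ind m) x) = (x.1, x.2 - qa m x.1) := by
    rw [tX_apply, sm_neg, map_neg, q_ind, ← sub_eq_add_neg]
  rw [hx, rX_apply, sX_apply, tX_apply] at h
  set b := x.2 - qa m x.1 with hb
  set e := d * x.1 * vb b with he
  change sX (e, tau b + q (sm e (-ind a))) = x at h
  rw [sm_neg, map_neg, q_ind, ← sub_eq_add_neg, sX_apply] at h
  have h1 : e * vb (tau b - qa a e) = x.1 := congrArg Prod.fst h
  have h2 : tau (tau b - qa a e) = x.2 := congrArg Prod.snd h
  have hd : vb b * vb (tau b - qa a e) = d := by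
    have k : d * (x.1 * (e * vb (tau b - qa a e))) = d * (x.1 * x.1) := by rw [h1]
    rw [he] at k
    have k2 : d * (x.1 * (d * x.1 * vb b * vb (tau b - qa a e))) =
        (d * d) * (x.1 * x.1) * (vb b * vb (tau b - qa a e)) := by
      simp only [mul_assoc, mul_left_comm, mul_comm]
    rw [← he] at k2
    rw [← he] at k
    rw [k2, sg_sq, sg_sq, one_mul, one_mul, mul_one] at k
    exact k
  refine fin2 b e a c ha ?_
  rw [hd, h1, ← hc, h2, hb]
  abel

/-- Third check. -/
theorem chk4 (x : X) (d : Sg) :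
    sX (tX (-ind (fun _ => true)) (sX (tX (-ind (fun _ => true)) (sX (rX d (tX (-ind
      (fun i => decide (d i = 1))) x)))))) ≠ x := by
  intro h
  set m : Fin 3 → Bool := fun i => decide (d i = 1) with hm
  have hx : (tX (-ind m) x) = (x.1, x.2 - qa m x.1) := by
    rw [tX_apply, sm_neg, map_neg, q_ind, ← sub_eq_add_neg]
  rw [hx, rX_apply, sX_apply, tX_apply] at h
  set b := x.2 - qa m x.1 with hb
  set e := d * x.1 * vb b with he
  set a : Fin 3 → Bool := fun _ => true with ha
  change sX (tX (-ind a) (sX (e, tau b + q (sm e (-ind a))))) = x at h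
  rw [sm_neg, map_neg, q_ind, ← sub_eq_add_neg, sX_apply, tX_apply] at h
  set b2 := tau b - qa a e with hb2
  change sX (e * vb b2, tau b2 + q (sm (e * vb b2) (-ind a))) = x at h
  rw [sm_neg, map_neg, q_ind, ← sub_eq_add_neg, sX_apply] at h
  set b3 := tau b2 - qa a (e * vb b2) with hb3
  have h1 : e * vb b2 * vb b3 = x.1 := congrArg Prod.fst h
  have h2 : tau b3 = x.2 := congrArg Prod.snd h
  have hd : vb b * vb b2 * vb b3 = d := by
    have k : d * (x.1 * (e * vb b2 * vb b3)) = d * (x.1 * x.1) := by rw [h1]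
    rw [he] at k
    have k2 : d * (x.1 * (d * x.1 * vb b * vb b2 * vb b3)) =
        (d * d) * (x.1 * x.1) * (vb b * vb b2 * vb b3) := by
      simp only [mul_assoc, mul_left_comm, mul_comm]
    rw [k2, sg_sq, sg_sq, one_mul, one_mul, mul_one] at k
    exact k
  refine fin4 b e ?_
  rw [← ha, ← hb2, ← hb3, h1, hd, ← hm, h2, hb]
  abel

end QIG.KM
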