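import Pool.Agent.W_a51130_h68.KM.Cls
import Pool.Agent.W_a51130_h68.KM.RepX
import Pool.Agent.W_a51130_h68.KM.Hom2

/-!
MP_a51130_gt: an element of `G` which fixes a point of hyperbolic space and a point of `X` is
trivial.
-/

namespace QIG.KM

open QIG

/-- The action of `G` on `X`. -/
noncomputable def ph : G →* Equiv.Perm X := Phi rep

theorem ph_T (v : Fin 3 → ℤ) : ph (TG v) = tX v := Phi_T rep v
theorem ph_D (d : Sg) : ph (DG d) = rX d := Phi_D rep d
theorem ph_S : ph SG = sX := Phi_S rep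

theorem TG_DG' (v : Fin 3 → ℤ) (d : Sg) : TG v * DG d = DG d * TG (sm d v) := by
  rw [DG_TG, sm_sm, sg_sq, sm_one]

theorem inv_inf_of (W : G) {z : L} (h : W.1 inf = z) : (W⁻¹).1 z = inf := by
  rw [← h]
  exact inv_mul_ap W.1 inf

theorem factor (A W : G) (hW : A.1 inf = W.1 inf) : ∃ d m, A = W * DG d * TG (-m) := by
  have h : cc (W⁻¹ * A) = 0 := by
    change ((W⁻¹).1 (A.1 inf)).2.2 = 0
    rw [hW, inv_inf_of W rfl]
    rfl
  obtain ⟨v, d, e⟩ := base _ h
  refine ⟨d, - sm d v, ?_⟩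
  rw [neg_neg, mul_assoc, ← TG_DG', ← e, mul_inv_cancel_left]

theorem fix_h {A : Au} {g : Equiv.Perm (HPt 3)} (hg : (A, g) ∈ GG) {y : HPt 3} (hy : g y = y)
    (z : L) : h (A z) y = h z y := by
  have := hg.2.1 z y
  change h (A z) (g y) = _ at this
  rwa [hy] at this

theorem inv_pair {A : Au} {g : Equiv.Perm (HPt 3)} (hg : (A, g) ∈ GG) : (A⁻¹, g⁻¹) ∈ GG :=
  GG.inv_mem hg

theorem inv_fix {g : Equiv.Perm (HPt 3)} {y : HPt 3} (hy : g y = y) : g⁻¹ y = y := by
  change g.symm y = y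
  rw [Equiv.symm_apply_eq]
  exact hy.symm

theorem h_one (d : Sg) (m : Fin 3 → ℤ) (i : Fin 3) (y : HPt 3) :
    h (S (Dg d (T (-m) (ee i)))) y =
      (4 * (d i : ℤ) * y.u i - 8 * (m i) * nn y) / (2 * y.t) := by
  fin_cases i <;>
  · simp only [h, S_apply, Dg_apply, T_apply, ee, ip, sm, sg, nn, Pi.neg_apply]
    simp
    ring

theorem h_two (a : Fin 3 → ℤ) (d : Sg) (m : Fin 3 → ℤ) (i : Fin 3) (y : HPt 3) :
    h (S (T (-a) (S (Dg d (T (-m) (ee i)))))) y =
      (-2 * m i - 4 * ((d i : ℤ) * y.u i) + 8 * m i * (a 0 * y.u 0 + a 1 * y.u 1 + a 2 * y.u 2) +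
        4 * (2 * (d i : ℤ) * a i - 2 * ((a 0) ^ 2 + (a 1) ^ 2 + (a 2) ^ 2) * m i) * nn y) /
        (2 * y.t) := by
  fin_cases i <;>
  · simp only [h, S_apply, Dg_apply, T_apply, ee, ip, sm, sg, nn, Pi.neg_apply]
    simp
    ring

theorem hee (i : Fin 3) (y : HPt 3) : h (ee i) y = (-4 * y.u i) / (2 * y.t) := by
  rw [h_ee]
  ring

theorem div_eq_of_t {y : HPt 3} {p r : ℝ} (h : p / (2 * y.t) = r / (2 * y.t)) : p = r := by
  have ht := y.pos
  have h2 : (2 * y.t) ≠ 0 := by positivity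
  field_simp at h
  linarith

/-- Normalised types. -/
def NT (k : ℤ) (b : Fin 3 → ℤ) : Prop :=
  (k = 1 ∧ b = 0) ∨
  (∃ a : Fin 3 → Bool, ((a 0 && a 1) || (a 0 && a 2) || (a 1 && a 2)) = true ∧ b = ind a ∧
    k = ip b b ∧ (k = 2 ∨ k = 3)) ∨
  (k = 4 ∧ b = fun _ => 2)

theorem ind_decide {m : Fin 3 → ℤ} (h : ∀ i, m i = 0 ∨ m i = 1) :
    m = ind (fun i => decide (m i = 1)) := by
  funext i
  rcases h i with h | h <;> simp [ind, h]

theorem unit_cases (d : Sg) (i : Fin 3) : (d i = 1 ∧ (d i : ℤ) = 1) ∨ (d i = -1 ∧ (d i : ℤ) = -1) := by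
  rcases Int.units_eq_one_or (d i) with h | h
  · exact Or.inl ⟨h, by rw [h]; rfl⟩
  · exact Or.inr ⟨h, by rw [h]; rfl⟩

theorem core1 (A : G) {g : Equiv.Perm (HPt 3)} (hg : (A.1, g) ∈ GG) {y : HPt 3} (hy : g y = y)
    (hn : Norm y) (x : X) (hx : ph A x = x) (hk : cc A = 1) (hb : (A.1 inf).2.1 = 0) : False := by
  have hcls := cls hg hy hn (by change 1 ≤ cc A; omega)
  have ha : (A.1 inf).1 = 0 := by
    have := f_cusp A
    have hc : (A.1 inf).2.2 = 1 := hk
    simp only [f, hb, hc] at this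
    simp [ip] at this
    exact this
  have hW : A.1 inf = SG.1 inf := by
    refine Prod.ext ?_ (Prod.ext ?_ ?_)
    · rw [ha]; rfl
    · rw [hb]; funext i; simp [SG, inf]
    · change cc A = _
      rw [hk]; rfl
  obtain ⟨d, m, e⟩ := factor A SG hW
  have einv : (A⁻¹).1 inf = pt m := by
    apply inv_inf_of_symm
    rw [e]
    change S (Dg d (T (-m) (pt m))) = inf
    refine Prod.ext ?_ (Prod.ext ?_ ?_)
    · simp [pt, inf]
    · funext i; simp [pt, inf, sm]
    · simp [pt, inf, ip]; ring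
  have hci := cls (inv_pair hg) (inv_fix hy) hn (by
    change 1 ≤ ((A⁻¹).1 inf).2.2
    rw [einv]
    exact le_rfl)
  change Typ ((A⁻¹).1 inf).2.2 ((A⁻¹).1 inf).2.1 ∧ _ ∧ ∀ i, ((A⁻¹).1 inf).2.1 i ≠ 0 → _ at hci
  rw [einv] at hci
  obtain ⟨ht, hN, hu⟩ := hci
  have hm : ∀ i, m i = 0 ∨ m i = 1 := by
    rcases ht with ⟨_, h⟩ | ⟨h, _⟩ | ⟨h, _⟩ | ⟨h, _⟩
    · exact h
    · exact absurd h (by norm_num [pt])
    · exact absurd h (by norm_num [pt])
    · exact absurd h (by norm_num [pt])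
  have hd : ∀ i, m i = 1 → d i = 1 := by
    intro i hi
    have h1 := fix_h hg hy (ee i)
    rw [e] at h1
    change h (S (Dg d (T (-m) (ee i)))) y = _ at h1
    rw [h_one, hee] at h1
    have h2 := div_eq_of_t h1
    have h3 : 4 * y.u i = 1 := hu i (by change m i ≠ 0; omega)
    rcases unit_cases d i with ⟨h4, h5⟩ | ⟨h4, h5⟩
    · exact h4
    · exfalso
      rw [h5, hi] at h2
      push_cast at h2
      linarith
  refine chk1 x d (fun i => decide (m i = 1)) (fun i hi => hd i (by simpa using hi)) ?_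
  rw [← ind_decide hm]
  have e2 : ph A = sX * rX d * tX (-m) := by rw [e, map_mul, map_mul, ph_S, ph_D, ph_T]
  rw [e2] at hx
  exact hx
where
  inv_inf_of_symm {A : G} {z : L} (h : A.1 z = inf) : (A⁻¹).1 inf = z := by
    rw [← h]
    exact inv_mul_ap A.1 z

theorem inv_inf_of_symm' {A : G} {z : L} (h : A.1 z = inf) : (A⁻¹).1 inf = z := by
  rw [← h]
  exact inv_mul_ap A.1 z

theorem ind_sq (a : Fin 3 → Bool) (i : Fin 3) : ind a i * ind a i = ind a i := by
  simp only [ind]
  cases a i <;> simp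

theorem core2 (A : G) {g : Equiv.Perm (HPt 3)} (hg : (A.1, g) ∈ GG) {y : HPt 3} (hy : g y = y)
    (hn : Norm y) (x : X) (hx : ph A x = x) (a : Fin 3 → Bool)
    (ha2 : ((a 0 && a 1) || (a 0 && a 2) || (a 1 && a 2)) = true)
    (hb : (A.1 inf).2.1 = ind a) (hk : cc A = ip (ind a) (ind a)) (hk2 : cc A = 2 ∨ cc A = 3) :
    False := by
  have hcls := cls hg hy hn (by change 1 ≤ cc A; omega)
  have ha : (A.1 inf).1 = 1 := by
    have := f_cusp A
    have hc : (A.1 inf).2.2 = cc A := rfl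
    simp only [f, hb, hc, ← hk] at this
    have h2 : cc A * (1 - (A.1 inf).1) = 0 := by linarith
    rcases mul_eq_zero.mp h2 with h | h
    · omega
    · linarith
  have hW : A.1 inf = (SG * TG (-ind a) * SG).1 inf := by
    change A.1 inf = S (T (-ind a) (S inf))
    refine Prod.ext ?_ (Prod.ext ?_ ?_)
    · rw [ha]; simp [inf]
    · rw [hb]; funext i; simp [inf]
    · change cc A = _
      rw [hk]; simp [inf, ip]
  obtain ⟨d, m, e⟩ := factor A _ hW
  have einv : (A⁻¹).1 inf = T m (1, - sm d (ind a), ip (ind a) (ind a)) := by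
    apply inv_inf_of_symm'
    rw [e]
    change S (T (-ind a) (S (Dg d (T (-m) (T m (1, - sm d (ind a), ip (ind a) (ind a))))))) = inf
    have e1 : T (-m) (T m (1, - sm d (ind a), ip (ind a) (ind a))) =
        (1, - sm d (ind a), ip (ind a) (ind a)) := by
      have : TG (-m) * TG m = 1 := by rw [← TG_add, neg_add_cancel, TG_zero]
      exact congrArg (fun q : G => q.1 (1, - sm d (ind a), ip (ind a) (ind a))) this
    rw [e1]
    have e2 : Dg d ((1, - sm d (ind a), ip (ind a) (ind a)) : L) =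
        (1, - ind a, ip (ind a) (ind a)) := by
      refine Prod.ext rfl (Prod.ext ?_ rfl)
      change sm d (- sm d (ind a)) = - ind a
      rw [sm_neg, sm_sm, sg_sq, sm_one]
    rw [e2]
    refine Prod.ext ?_ (Prod.ext ?_ ?_)
    · simp [inf]
    · funext i
      simp [inf]
    · simp [inf, ip]; ring
  have hci := cls (inv_pair hg) (inv_fix hy) hn (by
    change 1 ≤ ((A⁻¹).1 inf).2.2
    rw [einv]
    change 1 ≤ ip (ind a) (ind a)
    omega)
  change Typ ((A⁻¹).1 inf).2.2 ((A⁻¹).1 inf).2.1 ∧ _ ∧ ∀ i, ((A⁻¹).1 inf).2.1 i ≠ 0 → _ at hci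
  rw [einv] at hci
  obtain ⟨ht, hN, hu⟩ := hci
  have eb : ∀ i, (T m (1, - sm d (ind a), ip (ind a) (ind a))).2.1 i =
      - ((d i : ℤ) * ind a i) + m i * cc A := by
    intro i
    rw [hk]
    rfl
  have ec : (T m (1, - sm d (ind a), ip (ind a) (ind a))).2.2 = cc A := by
    rw [hk]
    rfl
  rw [ec] at ht
  simp only [eb] at hu
  have ia : ∀ i, (a i = true ∧ ind a i = 1) ∨ (a i = false ∧ ind a i = 0) := by
    intro i
    simp only [ind]
    cases a i <;> simp
  -- values of m
  have hm : ∀ i, (m i = 0 ∨ m i = 1) ∧ (a i = true → (m i = 1 ↔ d i = 1)) := by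
    intro i
    have hv : cc A = 2 ∧ (- ((d i : ℤ) * ind a i) + m i * cc A = 0 ∨
        - ((d i : ℤ) * ind a i) + m i * cc A = 1 ∨ - ((d i : ℤ) * ind a i) + m i * cc A = 2) ∨
        cc A = 3 ∧ (- ((d i : ℤ) * ind a i) + m i * cc A = 1 ∨
        - ((d i : ℤ) * ind a i) + m i * cc A = 2) := by
      rcases ht with ⟨h, _⟩ | ⟨h, h', _⟩ | ⟨h, h'⟩ | ⟨h, _⟩
      · omega
      · left
        have := h' i
        rw [eb] at this
        exact ⟨h, this⟩
      · right
        have := h' i
        rw [eb] at this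
        exact ⟨h, this⟩
      · omega
    rcases hv with ⟨h, hv⟩ | ⟨h, hv⟩
    · rw [h] at hv
      rcases unit_cases d i with ⟨h4, h5⟩ | ⟨h4, h5⟩ <;> rcases ia i with ⟨h6, h7⟩ | ⟨h6, h7⟩ <;>
        rw [h5, h7] at hv
      · have : m i = 1 := by omega
        exact ⟨Or.inr this, fun _ => ⟨fun _ => h4, fun _ => this⟩⟩
      · refine ⟨by omega, fun h8 => ?_⟩
        rw [h6] at h8; exact absurd h8 (by decide)
      · have : m i = 0 := by omega
        refine ⟨Or.inl this, fun _ => ⟨fun h9 => by omega, fun h9 => ?_⟩⟩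
        rw [h4] at h9; exact absurd h9 (by decide)
      · refine ⟨by omega, fun h8 => ?_⟩
        rw [h6] at h8; exact absurd h8 (by decide)
    · have h3 : ∀ j, a j = true := by
        have hk3 : ip (ind a) (ind a) = 3 := by rw [← hk]; exact h
        intro j
        by_contra hcon
        have hj : ind a j = 0 := by simp [ind, hcon]
        simp only [ip] at hk3
        rw [ind_sq, ind_sq, ind_sq] at hk3
        have l0 : ind a 0 ≤ 1 := by simp only [ind]; split_ifs <;> norm_num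
        have l1 : ind a 1 ≤ 1 := by simp only [ind]; split_ifs <;> norm_num
        have l2 : ind a 2 ≤ 1 := by simp only [ind]; split_ifs <;> norm_num
        fin_cases j
        · change ind a 0 = 0 at hj; omega
        · change ind a 1 = 0 at hj; omega
        · change ind a 2 = 0 at hj; omega
      have h7 : ind a i = 1 := by simp [ind, h3 i]
      rw [h, h7] at hv
      rcases unit_cases d i with ⟨h4, h5⟩ | ⟨h4, h5⟩ <;> rw [h5] at hv
      · have : m i = 1 := by omega
        exact ⟨Or.inr this, fun _ => ⟨fun _ => h4, fun _ => this⟩⟩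
      · have : m i = 0 := by omega
        refine ⟨Or.inl this, fun _ => ⟨fun h9 => by omega, fun h9 => ?_⟩⟩
        rw [h4] at h9; exact absurd h9 (by decide)
  have hd : ∀ i, a i = false → m i = 1 → d i = -1 := by
    intro i hai hi
    have hia : ind a i = 0 := by simp [ind, hai]
    have hcc : cc A = 2 := by
      rcases hk2 with h | h
      · exact h
      · exfalso
        have hk3 : ip (ind a) (ind a) = 3 := by rw [← hk]; exact h
        simp only [ip] at hk3
        rw [ind_sq, ind_sq, ind_sq] at hk3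
        have l0 : ind a 0 ≤ 1 := by simp only [ind]; split_ifs <;> norm_num
        have l1 : ind a 1 ≤ 1 := by simp only [ind]; split_ifs <;> norm_num
        have l2 : ind a 2 ≤ 1 := by simp only [ind]; split_ifs <;> norm_num
        fin_cases i
        · change ind a 0 = 0 at hia; omega
        · change ind a 1 = 0 at hia; omega
        · change ind a 2 = 0 at hia; omega
    have h1 := fix_h hg hy (ee i)
    rw [e] at h1
    change h (S (T (-ind a) (S (Dg d (T (-m) (ee i)))))) y = _ at h1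
    rw [h_two, hee] at h1
    have h2 := div_eq_of_t h1
    have h3 : 4 * y.u i = 1 := hu i (by rw [hia, hi, hcc]; norm_num)
    have hau : ∀ j, (ind a j : ℝ) * y.u j = (ind a j : ℝ) / 4 := by
      intro j
      rcases ia j with ⟨h6, h7⟩ | ⟨h6, h7⟩
      · have h8 : 4 * y.u j = 1 := by
          apply hcls.2.2 j
          rw [hb, h7]
          norm_num
        rw [h7]
        push_cast
        linarith
      · rw [h7]; simp
    have hsum : (ind a 0 : ℝ) + ind a 1 + ind a 2 = 2 := by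
      have hk3 : ip (ind a) (ind a) = 2 := by rw [← hk]; exact hcc
      simp only [ip] at hk3
      rw [ind_sq, ind_sq, ind_sq] at hk3
      exact_mod_cast hk3
    have hsq : ∀ j, (ind a j : ℝ) ^ 2 = ind a j := by
      intro j
      have := ind_sq a j
      rw [sq]
      exact_mod_cast this
    rw [hsq, hsq, hsq, hau, hau, hau, hia, hi] at h2
    rcases unit_cases d i with ⟨h4, h5⟩ | ⟨h4, h5⟩
    · exfalso
      rw [h5] at h2
      push_cast at h2
      have hs2 : (ind a 0 : ℝ) = 2 - ind a 1 - ind a 2 := by linarith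
      rw [hs2] at h2
      nlinarith
    · exact h4
  have hm0 := fun i => (hm i).1
  refine chk2 x d a (fun i => decide (m i = 1)) ha2 (fun i => ⟨fun h1 => ?_, fun h1 h2 => ?_⟩) ?_
  · rw [decide_eq_true_iff]
    exact (hm i).2 h1
  · exact hd i h1 (by simpa using h2)
  · rw [← ind_decide hm0]
    have e2 : ph A = sX * tX (-ind a) * sX * rX d * tX (-m) := by
      rw [e]
      simp only [map_mul, ph_S, ph_D, ph_T]
    rw [e2] at hx
    exact hx

theorem core4 (A : G) {g : Equiv.Perm (HPt 3)} (hg : (A.1, g) ∈ GG) {y : HPt 3} (hy : g y = y)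
    (hn : Norm y) (x : X) (hx : ph A x = x) (hk : cc A = 4)
    (hb : (A.1 inf).2.1 = fun _ => 2) : False := by
  set a : Fin 3 → Bool := fun _ => true with ha
  have hia : ∀ i, ind a i = 1 := fun i => rfl
  have h1 : (A.1 inf).1 = 3 := by
    have := f_cusp A
    have hc : (A.1 inf).2.2 = 4 := hk
    simp only [f, hb, hc, ip] at this
    omega
  have hW : A.1 inf = (SG * TG (-ind a) * SG * TG (-ind a) * SG).1 inf := by
    change A.1 inf = S (T (-ind a) (S (T (-ind a) (S inf))))
    refine Prod.ext ?_ (Prod.ext ?_ ?_)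
    · rw [h1]; simp [inf, ip, hia]
    · rw [hb]; funext i; simp [inf, ip, hia]
    · change cc A = _
      rw [hk]; simp [inf, ip, hia]
  obtain ⟨d, m, e⟩ := factor A _ hW
  have einv : (A⁻¹).1 inf = T m (3, sm d (fun _ => -2), 4) := by
    apply inv_inf_of_symm'
    rw [e]
    change S (T (-ind a) (S (T (-ind a) (S (Dg d (T (-m) (T m (3, sm d (fun _ => -2), 4)))))))) = inf
    have e1 : T (-m) (T m (3, sm d (fun _ => -2), 4)) = (3, sm d (fun _ => -2), 4) := by
      have : TG (-m) * TG m = 1 := by rw [← TG_add, neg_add_cancel, TG_zero]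
      exact congrArg (fun q : G => q.1 (3, sm d (fun _ => -2), 4)) this
    rw [e1]
    have e2 : Dg d ((3, sm d (fun _ => -2), 4) : L) = (3, fun _ => -2, 4) := by
      refine Prod.ext rfl (Prod.ext ?_ rfl)
      change sm d (sm d (fun _ => -2)) = _
      rw [sm_sm, sg_sq, sm_one]
    rw [e2]
    refine Prod.ext ?_ (Prod.ext ?_ ?_)
    · simp [inf, ip, hia]
    · funext i
      simp [inf, ip, hia]
    · simp [inf, ip, hia]
  have hci := cls (inv_pair hg) (inv_fix hy) hn (by
    change 1 ≤ ((A⁻¹).1 inf).2.2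
    rw [einv]
    change (1 : ℤ) ≤ 4
    norm_num)
  change Typ ((A⁻¹).1 inf).2.2 ((A⁻¹).1 inf).2.1 ∧ _ ∧ ∀ i, ((A⁻¹).1 inf).2.1 i ≠ 0 → _ at hci
  rw [einv] at hci
  obtain ⟨ht, hN, hu⟩ := hci
  have hm : ∀ i, m i = if d i = 1 then 1 else 0 := by
    intro i
    have h2 : (d i : ℤ) * (-2) + m i * 4 = 2 := by
      rcases ht with ⟨h, _⟩ | ⟨h, _⟩ | ⟨h, _⟩ | ⟨_, h⟩
      · exact absurd h (by norm_num)
      · exact absurd h (by norm_num)
      · exact absurd h (by norm_num)
      · exact h i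
    rcases unit_cases d i with ⟨h4, h5⟩ | ⟨h4, h5⟩
    · rw [h5] at h2
      rw [if_pos h4]
      omega
    · rw [h5] at h2
      rw [if_neg (by rw [h4]; decide)]
      omega
  have hmi : m = ind (fun i => decide (d i = 1)) := by
    funext i
    rw [hm i]
    simp [ind]
  refine chk4 x d ?_
  rw [← hmi, ← ha]
  have e2 : ph A = sX * tX (-ind a) * sX * tX (-ind a) * sX * rX d * tX (-m) := by
    rw [e]
    simp only [map_mul, ph_S, ph_D, ph_T]
  rw [e2] at hx
  exact hx

end QIG.KM
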