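import Pool.Agent.W_a51130_h68.KM.Free

/-!
MP_a51130_gt: an element of `G` which fixes a point of hyperbolic space and a point of `X` is
trivial (conclusion).
-/

namespace QIG.KM

open QIG

theorem mulGG {A B : Au} {g k : Equiv.Perm (HPt 3)} (h1 : (A, g) ∈ GG) (h2 : (B, k) ∈ GG) :
    (A * B, g * k) ∈ GG := by
  have h := GG.mul_mem h1 h2
  rwa [Prod.mk_mul_mk] at h

/-- Signs of a reflection. -/
def dl (I : Fin 3 → Bool) : Sg := fun i => if I i then -1 else 1

/-- Symmetries of the unit cube. -/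
def sig (I : Fin 3 → Bool) : G := TG (ind I) * DG (dl I)

noncomputable def sigP (I : Fin 3 → Bool) : Equiv.Perm (HPt 3) := transl (half (ind I)) * flip (dl I)

theorem sig_pair (I : Fin 3 → Bool) : ((sig I).1, sigP I) ∈ GG :=
  mulGG (pT_mem (ind I)) (pD_mem (dl I))

theorem sigP_fix (I : Fin 3 → Bool) (y : HPt 3) (h : ∀ i, I i = true → 4 * y.u i = 1) :
    sigP I y = y := by
  refine HPt.ext ?_ rfl
  ext i
  change (((dl I i : ℤˣ) : ℤ) : ℝ) * y.u i + (ind I i : ℝ) / 2 = y.u i
  by_cases hi : I i = true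
  · have := h i hi
    simp only [dl, ind, hi, if_true]
    push_cast
    linarith
  · simp only [dl, ind, hi]
    simp

theorem sig_inf (I : Fin 3 → Bool) : (sig I).1 inf = inf := by
  change T (ind I) (Dg (dl I) inf) = inf
  refine Prod.ext ?_ (Prod.ext ?_ ?_)
  · simp [inf, ip, sm]
  · funext i; simp [inf, sm]
  · simp [inf]

/-- Conjugation. -/
theorem conj_all {A P : Au} {g p : Equiv.Perm (HPt 3)} (hA : (A, g) ∈ GG) (hP : (P, p) ∈ GG) :
    (P * A * P⁻¹, p * g * p⁻¹) ∈ GG :=
  mulGG (mulGG hP hA) (inv_pair hP)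

theorem conj_fix {g p : Equiv.Perm (HPt 3)} {y : HPt 3} (hy : g y = y) :
    (p * g * p⁻¹) (p y) = p y := by
  change p (g (p.symm (p y))) = p y
  rw [p.symm_apply_apply, hy]

theorem conj_ph {A P : G} {x : X} (hx : ph A x = x) : ph (P * A * P⁻¹) (ph P x) = ph P x := by
  rw [map_mul, map_mul, map_inv]
  change ph P (ph A ((ph P).symm (ph P x))) = ph P x
  rw [Equiv.symm_apply_apply, hx]

theorem free_norm (A : G) {g : Equiv.Perm (HPt 3)} (hg : (A.1, g) ∈ GG) {y : HPt 3}
    (hy : g y = y) (hn : Norm y) (x : X) (hx : ph A x = x) : A = 1 := by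
  by_cases h0 : cc A = 0
  · obtain ⟨v, d, rfl⟩ := base A h0
    rw [map_mul, ph_T, ph_D] at hx
    change tX v (rX d x) = x at hx
    rw [rX_apply, tX_apply] at hx
    have h1 : d * x.1 = x.1 := congrArg Prod.fst hx
    have hd : d = 1 := by
      have : d * x.1 * x.1 = x.1 * x.1 := by rw [h1]
      rwa [mul_assoc, sg_sq, mul_one] at this
    subst hd
    have d1 : DG 1 = 1 := by
      have h := DG_mul 1 1
      rw [mul_one] at h
      exact left_eq_mul.mp h
    rw [d1, mul_one] at hg ⊢
    have hg2 : g = transl (half v) := pair_unique hg (pT_mem v)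
    have hv : v = 0 := by
      funext i
      have h2 := congrArg (fun z : HPt 3 => z.u i) hy
      rw [hg2] at h2
      change y.u i + (v i : ℝ) / 2 = y.u i at h2
      have h3 : (v i : ℝ) = 0 := by linarith
      exact_mod_cast h3
    rw [hv, TG_zero]
  · exfalso
    have hpos : 0 < cc A := by
      have := cc_nonneg A
      omega
    have hcls := cls hg hy hn (by change 1 ≤ cc A; omega)
    obtain ⟨ht, hN, hu⟩ := hcls
    change Typ (cc A) _ at ht
    have conj : ∀ I : Fin 3 → Bool, (∀ i, I i = true → (A.1 inf).2.1 i ≠ 0) →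
        ∃ (A' : G) (g' : Equiv.Perm (HPt 3)) (x' : X), (A'.1, g') ∈ GG ∧ g' y = y ∧
          ph A' x' = x' ∧ cc A' = cc A ∧
          ∀ i, (A'.1 inf).2.1 i = (dl I i : ℤ) * (A.1 inf).2.1 i + ind I i * cc A := by
      intro I hI
      have hfix := sigP_fix I y (fun i hi => hu i (hI i hi))
      have e : (sig I * A * (sig I)⁻¹).1 inf = (sig I).1 (A.1 inf) := by
        change (sig I).1 (A.1 ((sig I)⁻¹.1 inf)) = _
        rw [inv_inf_of (sig I) (sig_inf I)]
      refine ⟨sig I * A * (sig I)⁻¹, sigP I * g * (sigP I)⁻¹, ph (sig I) x,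
        conj_all hg (sig_pair I), ?_, conj_ph hx, ?_, ?_⟩
      · have := conj_fix (p := sigP I) hy
        rwa [hfix] at this
      · change ((sig I * A * (sig I)⁻¹).1 inf).2.2 = _
        rw [e]
        rfl
      · intro i
        rw [e]
        rfl
    rcases ht with ⟨hk, hb⟩ | ⟨hk, hb, hb2⟩ | ⟨hk, hb⟩ | ⟨hk, hb⟩
    · obtain ⟨A', g', x', h1, h2, h3, h4, h5⟩ := conj (fun i => decide ((A.1 inf).2.1 i = 1))
        (fun i hi => by
          have : (A.1 inf).2.1 i = 1 := by simpa using hi
          omega)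
      refine core1 A' h1 h2 hn x' h3 (h4.trans hk) ?_
      funext i
      rw [h5 i, hk]
      rcases hb i with h | h
      · simp [dl, ind, h]
      · simp [dl, ind, h]
    · obtain ⟨A', g', x', h1, h2, h3, h4, h5⟩ := conj (fun i => decide ((A.1 inf).2.1 i = 2))
        (fun i hi => by
          have : (A.1 inf).2.1 i = 2 := by simpa using hi
          omega)
      have e0 : ∀ i, (A'.1 inf).2.1 i = ind (fun i => decide ((A.1 inf).2.1 i = 1)) i := by
        intro i
        rw [h5 i, hk]
        rcases hb i with h | h | h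
        · simp [dl, ind, h]
        · simp [dl, ind, h]
        · simp [dl, ind, h]
      refine core2 A' h1 h2 hn x' h3 (fun i => decide ((A.1 inf).2.1 i = 1)) ?_ (funext e0) ?_
        (Or.inl (h4.trans hk))
      · rcases hb2 with ⟨a0, a1, a2⟩ | ⟨a0, a1, a2⟩ | ⟨a0, a1, a2⟩ <;> simp [a0, a1]
      · rw [h4, hk]
        simp only [ip, ind_sq]
        rcases hb2 with ⟨a0, a1, a2⟩ | ⟨a0, a1, a2⟩ | ⟨a0, a1, a2⟩ <;> simp [ind, a0, a1, a2]
    · obtain ⟨A', g', x', h1, h2, h3, h4, h5⟩ := conj (fun i => decide ((A.1 inf).2.1 i = 2))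
        (fun i hi => by
          have : (A.1 inf).2.1 i = 2 := by simpa using hi
          omega)
      have e0 : ∀ i, (A'.1 inf).2.1 i = ind (fun _ => true) i := by
        intro i
        rw [h5 i, hk]
        rcases hb i with h | h
        · simp [dl, ind, h]
        · simp [dl, ind, h]
      refine core2 A' h1 h2 hn x' h3 (fun _ => true) rfl (funext e0) ?_
        (Or.inr (h4.trans hk))
      rw [h4, hk]
      simp [ip, ind]
    · exact core4 A hg hy hn x hx hk (funext hb)

/-- **Freeness**: an element which fixes a point of the hyperbolic space and a point of `X` is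
trivial. -/
theorem free_main (A : G) {g : Equiv.Perm (HPt 3)} (hg : (A.1, g) ∈ GG) {y : HPt 3}
    (hy : g y = y) (x : X) (hx : ph A x = x) : A = 1 := by
  obtain ⟨p, hp, hmax⟩ := exists_high GG le_rfl y
  set y1 := p.2 y with hy1
  set v : Fin 3 → ℤ := fun i => - round (2 * y1.u i) with hv
  set d : Sg := fun i => if 0 ≤ 2 * y1.u i + v i then 1 else -1 with hd
  set P : Au × Equiv.Perm (HPt 3) := (Dg d, flip d) * (T v, transl (half v)) * p with hP
  have hPm : P ∈ GG := GG.mul_mem (GG.mul_mem (pD_mem d) (pT_mem v)) hp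
  set y2 := P.2 y with hy2
  have ht2 : y2.t = y1.t := rfl
  have hu2 : ∀ i, y2.u i = ((d i : ℤ) : ℝ) * (y1.u i + (v i : ℝ) / 2) := fun i => rfl
  have hround : ∀ i, |2 * y1.u i + v i| ≤ 1 / 2 := by
    intro i
    have := abs_sub_round (2 * y1.u i)
    have e : 2 * y1.u i + (v i : ℝ) = 2 * y1.u i - round (2 * y1.u i) := by
      rw [hv]; push_cast; ring
    rw [e]
    exact this
  have habs : ∀ i, 2 * y2.u i = |2 * y1.u i + v i| := by
    intro i
    rw [hu2 i]
    by_cases h : 0 ≤ 2 * y1.u i + v i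
    · have e : d i = 1 := by rw [hd]; simp only [h, if_true]
      rw [e, abs_of_nonneg h]
      push_cast
      ring
    · have e : d i = -1 := by rw [hd]; simp only [h, if_false]
      push Not at h
      rw [e, abs_of_neg h]
      push_cast
      ring
  have hn : Norm y2 := by
    refine ⟨?_, fun i => ?_, fun i => ?_⟩
    · have h1 := hmax ((S, ivs) * P) (GG.mul_mem pS_mem hPm)
      change (rho y2).t ≤ y1.t at h1
      rw [rho_t, ← ht2] at h1
      have hpos := y2.pos
      have hnn := nn_pos y2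
      rw [div_le_iff₀ (by positivity)] at h1
      have h2 : y2.t * 1 ≤ y2.t * (4 * nn y2) := by linarith
      exact le_of_mul_le_mul_left h2 hpos
    · have := habs i
      have h0 := abs_nonneg (2 * y1.u i + v i)
      linarith
    · have := habs i
      have h0 := hround i
      linarith
  set Q : G := ⟨P.1, hPm.1⟩ with hQ
  have key := free_norm (Q * A * Q⁻¹) (g := P.2 * g * P.2⁻¹)
    (conj_all hg (show (Q.1, P.2) ∈ GG from hPm)) (conj_fix (p := P.2) hy) hn (ph Q x) (conj_ph hx)
  have e : A = Q⁻¹ * (Q * A * Q⁻¹) * Q := by group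
  rw [e, key]
  group

end QIG.KM
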