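import Pool.Agent.W_a51130_h68.KM.Hyp
import Pool.Agent.W_a51130_h68.KM.Base

/-!
MP_a51130_gt: finiteness of cusps of bounded height, existence of highest points, discreteness.
-/

namespace QIG.KM

open QIG

theorem h_inf (x : HPt 3) : h inf x = 1 / (2 * x.t) := by
  simp [h, inf]

theorem h_pt (v : Fin 3 → ℤ) (x : HPt 3) : h (pt v) x =
    ((2 * x.u 0 - v 0) ^ 2 + (2 * x.u 1 - v 1) ^ 2 + (2 * x.u 2 - v 2) ^ 2 + (2 * x.t) ^ 2) /
    (2 * x.t) := by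
  simp only [h, pt, ip]
  congr 1
  push_cast
  ring

theorem f_pt (v : Fin 3 → ℤ) : f (pt v) = 0 := by
  simp [f, pt]

theorem pos_pt (v : Fin 3 → ℤ) : pos (pt v) := by
  refine ⟨?_, by norm_num [pt]⟩
  simp only [pt, ip]
  nlinarith [mul_self_nonneg (v 0), mul_self_nonneg (v 1), mul_self_nonneg (v 2)]

theorem harn (a c b0 b1 b2 u0 u1 u2 t : ℝ) (ha : 0 ≤ a) (hc : 0 ≤ c)
    (hb : b0 ^ 2 + b1 ^ 2 + b2 ^ 2 = a * c) (ht : 0 < t) :
    t ^ 2 * (a + 4 * c) ≤ (1 + (u0 ^ 2 + u1 ^ 2 + u2 ^ 2 + t ^ 2)) *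
      (a - 4 * (b0 * u0 + b1 * u1 + b2 * u2) + 4 * c * (u0 ^ 2 + u1 ^ 2 + u2 ^ 2 + t ^ 2)) := by
  set U := u0 ^ 2 + u1 ^ 2 + u2 ^ 2 with hU
  have hU0 : 0 ≤ U := by positivity
  set w := b0 * u0 + b1 * u1 + b2 * u2 with hw
  have cs : w ^ 2 ≤ (a * c) * U := by
    rw [← hb, hw, hU]
    nlinarith [sq_nonneg (b0 * u1 - b1 * u0), sq_nonneg (b0 * u2 - b2 * u0),
      sq_nonneg (b1 * u2 - b2 * u1)]
  have hp : 0 ≤ 1 + U := by positivity
  have hr : 0 ≤ (1 + (U + t ^ 2)) * (U + t ^ 2) - t ^ 2 := by nlinarith [sq_nonneg t]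
  have key : 4 * (1 + (U + t ^ 2)) * w ≤ (1 + U) * a +
      4 * c * ((1 + (U + t ^ 2)) * (U + t ^ 2) - t ^ 2) := by
    have h2 : (4 * (1 + (U + t ^ 2)) * w) ^ 2 ≤ ((1 + U) * a +
        4 * c * ((1 + (U + t ^ 2)) * (U + t ^ 2) - t ^ 2)) ^ 2 := by
      have h3 : ((1 + U) * a + 4 * c * ((1 + (U + t ^ 2)) * (U + t ^ 2) - t ^ 2)) ^ 2 ≥
          4 * ((1 + U) * a) * (4 * c * ((1 + (U + t ^ 2)) * (U + t ^ 2) - t ^ 2)) := by
        nlinarith [sq_nonneg ((1 + U) * a - 4 * c * ((1 + (U + t ^ 2)) * (U + t ^ 2) - t ^ 2))]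
      have h4 : (1 + (U + t ^ 2)) ^ 2 * U ≤
          (1 + U) * ((1 + (U + t ^ 2)) * (U + t ^ 2) - t ^ 2) := by
        nlinarith [sq_nonneg t, mul_nonneg hU0 (sq_nonneg t), sq_nonneg (t ^ 2)]
      have h5 : (4 * (1 + (U + t ^ 2)) * w) ^ 2 ≤
          16 * ((1 + (U + t ^ 2)) ^ 2 * U) * (a * c) := by
        have : (4 * (1 + (U + t ^ 2)) * w) ^ 2 = 16 * (1 + (U + t ^ 2)) ^ 2 * w ^ 2 := by ring
        rw [this]
        have h6 : 0 ≤ 16 * (1 + (U + t ^ 2)) ^ 2 := by positivity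
        nlinarith [mul_le_mul_of_nonneg_left cs h6]
      have hac : 0 ≤ a * c := mul_nonneg ha hc
      have h7 := mul_le_mul_of_nonneg_right h4 hac
      nlinarith
    have h8 : 0 ≤ (1 + U) * a + 4 * c * ((1 + (U + t ^ 2)) * (U + t ^ 2) - t ^ 2) := by
      positivity
    exact le_of_sq_le_sq_aux h2 h8
  nlinarith
where
  le_of_sq_le_sq_aux {x y : ℝ} (h : x ^ 2 ≤ y ^ 2) (hy : 0 ≤ y) : x ≤ y :=
    le_of_abs_le (by rw [← abs_of_nonneg hy]; exact sq_le_sq.mp h)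

/-- There are finitely many cusps of bounded height. -/
theorem fin_cusps (x : HPt 3) (C : ℝ) : {z : L | f z = 0 ∧ pos z ∧ h z x ≤ C}.Finite := by
  have ht := x.pos
  set Q := x.u 0 ^ 2 + x.u 1 ^ 2 + x.u 2 ^ 2 + x.t ^ 2 with hQ
  obtain ⟨K, hK⟩ := exists_nat_ge ((1 + Q) * (C * (2 * x.t)) / x.t ^ 2)
  have hbox : {z : L | f z = 0 ∧ pos z ∧ h z x ≤ C} ⊆
      Set.Icc (0 : ℤ) (K : ℤ) ×ˢ (Set.Icc (fun _ => -(K : ℤ) : Fin 3 → ℤ) (fun _ => (K : ℤ)) ×ˢ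
        Set.Icc (0 : ℤ) (K : ℤ)) := by
    rintro z ⟨hf, ⟨ha, hc⟩, hz⟩
    have hb : (z.2.1 0 : ℝ) ^ 2 + (z.2.1 1 : ℝ) ^ 2 + (z.2.1 2 : ℝ) ^ 2 = (z.1 : ℝ) * (z.2.2 : ℝ) := by
      have : z.2.1 0 ^ 2 + z.2.1 1 ^ 2 + z.2.1 2 ^ 2 = z.1 * z.2.2 := by
        simp only [f, ip] at hf; linarith
      exact_mod_cast this
    have ha' : (0 : ℝ) ≤ z.1 := by exact_mod_cast ha
    have hc' : (0 : ℝ) ≤ z.2.2 := by exact_mod_cast hc
    have h1 := harn z.1 z.2.2 (z.2.1 0) (z.2.1 1) (z.2.1 2) (x.u 0) (x.u 1) (x.u 2) x.t ha' hc' hb ht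
    have h2 : ((z.1 : ℝ) - 4 * ((z.2.1 0 : ℝ) * x.u 0 + (z.2.1 1 : ℝ) * x.u 1 +
      (z.2.1 2 : ℝ) * x.u 2) + 4 * (z.2.2 : ℝ) * Q) ≤ C * (2 * x.t) := by
      have h3 : h z x = ((z.1 : ℝ) - 4 * ((z.2.1 0 : ℝ) * x.u 0 + (z.2.1 1 : ℝ) * x.u 1 +
        (z.2.1 2 : ℝ) * x.u 2) + 4 * (z.2.2 : ℝ) * Q) / (2 * x.t) := rfl
      rw [h3, div_le_iff₀ (by positivity)] at hz
      exact hz
    have hQ0 : 0 ≤ 1 + Q := by positivity
    have h4 : x.t ^ 2 * ((z.1 : ℝ) + 4 * z.2.2) ≤ (1 + Q) * (C * (2 * x.t)) :=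
      h1.trans (mul_le_mul_of_nonneg_left h2 hQ0)
    have h5 : ((z.1 : ℝ) + 4 * z.2.2) ≤ K := by
      refine le_trans ?_ hK
      rw [le_div_iff₀ (by positivity)]
      linarith
    have a1 : (z.1 : ℝ) ≤ K := by linarith
    have c1 : (z.2.2 : ℝ) ≤ K := by linarith
    have a2 : z.1 ≤ K := by exact_mod_cast a1
    have c2 : z.2.2 ≤ K := by exact_mod_cast c1
    have hbz : z.2.1 0 ^ 2 + z.2.1 1 ^ 2 + z.2.1 2 ^ 2 = z.1 * z.2.2 := by
      simp only [f, ip] at hf; linarith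
    have hm : z.1 * z.2.2 ≤ (K : ℤ) ^ 2 := by nlinarith
    have hK0 : (0 : ℤ) ≤ K := by positivity
    have bj : ∀ j, z.2.1 j ^ 2 ≤ (K : ℤ) ^ 2 := by
      intro j
      fin_cases j
      · change z.2.1 0 ^ 2 ≤ _
        nlinarith [sq_nonneg (z.2.1 1), sq_nonneg (z.2.1 2)]
      · change z.2.1 1 ^ 2 ≤ _
        nlinarith [sq_nonneg (z.2.1 0), sq_nonneg (z.2.1 2)]
      · change z.2.1 2 ^ 2 ≤ _
        nlinarith [sq_nonneg (z.2.1 0), sq_nonneg (z.2.1 1)]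
    have bj2 : ∀ j, -(K : ℤ) ≤ z.2.1 j ∧ z.2.1 j ≤ K := fun j => abs_le_of_sq_le_sq' (bj j) hK0
    exact ⟨⟨ha, a2⟩, ⟨⟨fun j => (bj2 j).1, fun j => (bj2 j).2⟩, ⟨hc, c2⟩⟩⟩
  exact ((Set.finite_Icc _ _).prod ((Set.finite_Icc _ _).prod (Set.finite_Icc _ _))).subset hbox

theorem h_cusp_inv (p : Au × Equiv.Perm (HPt 3)) (hp : p ∈ GG) (x : HPt 3) :
    h (p.1⁻¹ inf) x = 1 / (2 * (p.2 x).t) := by
  rw [← h_inf, ← hp.2.1 (p.1⁻¹ inf) x, mul_inv_ap]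

/-- Existence of a highest point in an orbit. -/
theorem exists_high (K : Subgroup (Au × Equiv.Perm (HPt 3))) (hK : K ≤ GG) (x : HPt 3) :
    ∃ p ∈ K, ∀ q ∈ K, (q.2 x).t ≤ (p.2 x).t := by
  set W : Set L := {z | (f z = 0 ∧ pos z ∧ h z x ≤ h inf x) ∧ ∃ p ∈ K, p.1⁻¹ inf = z} with hW
  have hfin : W.Finite := (fin_cusps x (h inf x)).subset (fun z hz => hz.1)
  have hne : W.Nonempty := by
    refine ⟨inf, ⟨⟨f_inf, pos_inf, le_rfl⟩, 1, K.one_mem, ?_⟩⟩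
    change (1 : Au)⁻¹ inf = inf
    rw [inv_one]
    rfl
  obtain ⟨z, ⟨⟨_, _, hz⟩, p, hpK, hp⟩, hmin⟩ := hfin.exists_minimalFor (fun z => h z x) W hne
  refine ⟨p, hpK, fun r hrK => ?_⟩
  have h1 := h_cusp_inv p (hK hpK) x
  have h2 := h_cusp_inv r (hK hrK) x
  have h3 : h z x ≤ h (r.1⁻¹ inf) x := by
    by_cases hcase : h (r.1⁻¹ inf) x ≤ h inf x
    · have hin : r.1⁻¹ inf ∈ W := by
        refine ⟨⟨?_, ?_, hcase⟩, r, hrK, rfl⟩
        · exact f_cusp (⟨r.1, (hK hrK).1⟩ : G)⁻¹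
        · exact pos_cusp (⟨r.1, (hK hrK).1⟩ : G)⁻¹
      by_contra hcon
      push Not at hcon
      exact absurd (hmin hin hcon.le) (not_le.mpr hcon)
    · push Not at hcase
      exact hz.trans hcase.le
  rw [← hp, h1, h2, one_div_le_one_div (by have := (p.2 x).pos; positivity)
    (by have := (r.2 x).pos; positivity)] at h3
  linarith

theorem h_ee (i : Fin 3) (x : HPt 3) : h (ee i) x = -(4 * x.u i) / (2 * x.t) := by
  fin_cases i <;> simp [h, ee, sg]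

theorem eq_of_h {x y : HPt 3} (hxy : ∀ z, h z x = h z y) : x = y := by
  have h1 := hxy inf
  rw [h_inf, h_inf] at h1
  have hx := x.pos
  have hy := y.pos
  have ht : x.t = y.t := by
    field_simp at h1
    linarith
  refine HPt.ext ?_ ht
  ext i
  have h2 := hxy (ee i)
  rw [h_ee, h_ee, ht] at h2
  field_simp at h2
  linarith

theorem pair_unique {A : Au} {g g' : Equiv.Perm (HPt 3)} (h1 : (A, g) ∈ GG) (h2 : (A, g') ∈ GG) :
    g = g' := by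
  apply Equiv.ext
  intro x
  apply eq_of_h
  intro z
  have e1 := h1.2.1 (A⁻¹ z) x
  have e2 := h2.2.1 (A⁻¹ z) x
  change h (A (A⁻¹ z)) (g x) = _ at e1
  change h (A (A⁻¹ z)) (g' x) = _ at e2
  rw [mul_inv_ap] at e1 e2
  rw [e1, e2]

/-- Five cusps. -/
def zz : Fin 5 → L := ![inf, pt 0, pt (sg 0 1), pt (sg 1 1), pt (sg 2 1)]

theorem zz_inj : Function.Injective (fun (A : Au) (i : Fin 5) => A (zz i)) := by
  intro A B hAB
  have e : ∀ i, A (zz i) = B (zz i) := fun i => congrFun hAB i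
  have o : org = pt 0 := by
    refine Prod.ext ?_ (Prod.ext ?_ rfl)
    · simp [org, pt, ip]
    · rfl
  have h0 : A inf = B inf := e 0
  have h1 : A org = B org := by rw [o]; exact e 1
  apply ext_basis h0 h1
  intro i
  have k : ee i = pt (sg i 1) - inf - org := by
    refine Prod.ext ?_ (Prod.ext ?_ ?_)
    · fin_cases i <;> simp [ee, pt, inf, org, ip, sg]
    · funext j; simp [ee, pt, inf, org]
    · simp [ee, pt, inf, org]
  have hi : A (pt (sg i 1)) = B (pt (sg i 1)) := by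
    fin_cases i
    · exact e 2
    · exact e 3
    · exact e 4
  rw [k, map_sub, map_sub, map_sub, map_sub, h0, h1, hi]

theorem zz_null (i : Fin 5) : f (zz i) = 0 ∧ pos (zz i) := by
  fin_cases i
  · exact ⟨f_inf, pos_inf⟩
  · exact ⟨f_pt _, pos_pt _⟩
  · exact ⟨f_pt _, pos_pt _⟩
  · exact ⟨f_pt _, pos_pt _⟩
  · exact ⟨f_pt _, pos_pt _⟩

theorem chd_base_bound {y : HPt 3} {r : ℝ} (hy : chd (QIG.base 3) y ≤ r) :
    y.u 0 ^ 2 + y.u 1 ^ 2 + y.u 2 ^ 2 + y.t ^ 2 + 1 ≤ 2 * (r + 1) * y.t := by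
  have ht := y.pos
  have e : chd (QIG.base 3) y = ((0 - y.u 0) ^ 2 + (0 - y.u 1) ^ 2 + (0 - y.u 2) ^ 2 + (1 - y.t) ^ 2) /
      (2 * 1 * y.t) := by
    rw [chd, normsq]
    rfl
  rw [e, div_le_iff₀ (by positivity)] at hy
  nlinarith

theorem h_zz_le {y : HPt 3} {r : ℝ} (hy : chd (QIG.base 3) y ≤ r) (i : Fin 5) :
    h (zz i) y ≤ 8 * (r + 1) := by
  have ht := y.pos
  have h1 := chd_base_bound hy
  have hp : ∀ v : Fin 3 → ℤ, ((v 0 : ℝ) ^ 2 + (v 1 : ℝ) ^ 2 + (v 2 : ℝ) ^ 2 ≤ 1) →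
      h (pt v) y ≤ 8 * (r + 1) := by
    intro v hv
    rw [h_pt, div_le_iff₀ (by positivity)]
    nlinarith [sq_nonneg (2 * y.u 0 + v 0), sq_nonneg (2 * y.u 1 + v 1),
      sq_nonneg (2 * y.u 2 + v 2), sq_nonneg (y.t)]
  fin_cases i
  · change h inf y ≤ _
    rw [h_inf, div_le_iff₀ (by positivity)]
    nlinarith [sq_nonneg (y.u 0), sq_nonneg (y.u 1), sq_nonneg (y.u 2), sq_nonneg (y.t)]
  · exact hp _ (by simp)
  · exact hp _ (by simp [sg])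
  · exact hp _ (by simp [sg])
  · exact hp _ (by simp [sg])

theorem chd_comm {m : ℕ} (x y : HPt m) : chd x y = chd y x := by
  simp only [chd]
  rw [norm_sub_rev]
  congr 1
  · ring
  · ring

/-- Discreteness. -/
theorem fin_disc (r : ℝ) :
    {g : Equiv.Perm (HPt 3) | (∃ A, (A, g) ∈ GG) ∧ chd (QIG.base 3) (g (QIG.base 3)) ≤ r}.Finite := by
  set F : Set L := {z : L | f z = 0 ∧ pos z ∧ h z (QIG.base 3) ≤ 8 * (r + 1)} with hF
  have hFf : F.Finite := fin_cusps _ _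
  set SS : Set Au := (fun (A : Au) (i : Fin 5) => A (zz i)) ⁻¹' (Set.univ.pi (fun _ => F)) with hSS
  have hSf : SS.Finite := (Set.Finite.pi' (fun _ => hFf)).preimage zz_inj.injOn |>.subset (by
    intro A hA i
    exact hA i (Set.mem_univ i))
  have hsub : {g : Equiv.Perm (HPt 3) | (∃ A, (A, g) ∈ GG) ∧ chd (QIG.base 3) (g (QIG.base 3)) ≤ r} ⊆
      ⋃ A ∈ SS, {g | (A, g) ∈ GG} := by
    rintro g ⟨⟨A, hA⟩, hg⟩
    simp only [Set.mem_iUnion]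
    refine ⟨A, ?_, hA⟩
    intro i _
    change f (A (zz i)) = 0 ∧ pos (A (zz i)) ∧ h (A (zz i)) (QIG.base 3) ≤ 8 * (r + 1)
    have hz := zz_null i
    refine ⟨?_, ?_, ?_⟩
    · rw [hA.1.1]; exact hz.1
    · exact (hA.1.2.1 _ hz.1).2 hz.2
    · have e := hA.2.1 (zz i) (g.symm (QIG.base 3))
      change h (A (zz i)) (g (g.symm (QIG.base 3))) = _ at e
      rw [g.apply_symm_apply] at e
      rw [e]
      apply h_zz_le
      rw [chd_comm]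
      have e2 := hA.2.2 (g.symm (QIG.base 3)) (QIG.base 3)
      change chd (g (g.symm (QIG.base 3))) (g (QIG.base 3)) = _ at e2
      rw [g.apply_symm_apply] at e2
      rw [← e2]
      exact hg
  refine Set.Finite.subset (hSf.biUnion (fun A _ => ?_)) hsub
  exact Set.Subsingleton.finite (fun g hg g' hg' => pair_unique hg hg')

end QIG.KM
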