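import Pool.Agent.W_a51130_h68.KM.Base

/-!
MP_a51130_gt: homomorphisms defined on `G` (presentation of `G`).
-/

namespace QIG.KM

variable {H : Type} [Group H]

theorem cc_step_lt (A : G) (h : cc A ≠ 0) :
    (cc (SG * TG (-near (A.1 inf)) * A)).toNat < (cc A).toNat := by
  have h0 := cc_nonneg A
  have h1 : 0 < cc A := by omega
  have h2 : N (A.1 inf) (near (A.1 inf)) < cc A := N_near (f_cusp A) h1
  rw [cc_step]
  omega

/-- Translation part. -/
def vA (A : G) : Fin 3 → ℤ := (A.1 org).2.1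

/-- Sign part. -/
def dA (A : G) : Sg := fun i => if 0 < (A.1 (ee i)).2.1 i then 1 else -1

/-- The homomorphism, defined by descent. -/
noncomputable def phi (ρ : Rep H) (A : G) : H :=
  if h : cc A = 0 then ρ.t (vA A) * ρ.r (dA A)
  else ρ.t (near (A.1 inf)) * ρ.s * phi ρ (SG * TG (-near (A.1 inf)) * A)
termination_by (cc A).toNat
decreasing_by exact cc_step_lt A h

variable (ρ : Rep H)

theorem cc_TD (v : Fin 3 → ℤ) (d : Sg) : cc (TG v * DG d) = 0 := by
  change (T v (Dg d inf)).2.2 = 0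
  simp [inf]

theorem vA_TD (v : Fin 3 → ℤ) (d : Sg) : vA (TG v * DG d) = v := by
  change (T v (Dg d org)).2.1 = v
  funext i
  simp [org, sm]

theorem dA_TD (v : Fin 3 → ℤ) (d : Sg) : dA (TG v * DG d) = d := by
  funext i
  have e : ((TG v * DG d).1 (ee i)).2.1 i = d i := by
    change (T v (Dg d (ee i))).2.1 i = d i
    simp [ee, sm, sg]
  simp only [dA, e]
  rcases Int.units_eq_one_or (d i) with h | h <;> rw [h] <;> simp

theorem phi_TD (v : Fin 3 → ℤ) (d : Sg) : phi ρ (TG v * DG d) = ρ.t v * ρ.r d := by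
  rw [phi, dif_pos (cc_TD v d), vA_TD, dA_TD]

theorem phi_step (A : G) (h : cc A ≠ 0) : phi ρ A =
    ρ.t (near (A.1 inf)) * ρ.s * phi ρ (SG * TG (-near (A.1 inf)) * A) := by
  rw [phi, dif_neg h]

theorem cc_TG_mul (v : Fin 3 → ℤ) (A : G) : cc (TG v * A) = cc A := rfl

theorem cc_DG_mul (d : Sg) (A : G) : cc (DG d * A) = cc A := rfl

theorem phi_T (v : Fin 3 → ℤ) (A : G) : phi ρ (TG v * A) = ρ.t v * phi ρ A := by
  by_cases h : cc A = 0
  · obtain ⟨w, d, rfl⟩ := base A h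
    rw [← mul_assoc, ← TG_add, phi_TD, phi_TD, ρ.t_add, mul_assoc]
  · rw [phi_step ρ (TG v * A) (by rw [cc_TG_mul]; exact h), phi_step ρ A h]
    have e : near ((TG v * A).1 inf) = v + near (A.1 inf) := near_T _ h v
    rw [e]
    have e2 : SG * TG (-(v + near (A.1 inf))) * (TG v * A) = SG * TG (-near (A.1 inf)) * A := by
      rw [← mul_assoc, mul_assoc SG, ← TG_add]
      congr 3
      abel
    rw [e2, ρ.t_add]
    simp only [mul_assoc]

/-- The step relation. -/
def St (A : G) (m : Fin 3 → ℤ) : Prop :=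
  phi ρ A = ρ.t m * ρ.s * phi ρ (SG * TG (-m) * A)

/-- Equivariance under sign changes. -/
def Eq' (A : G) : Prop := ∀ d, phi ρ (DG d * A) = ρ.r d * phi ρ A

theorem sm_R (i : Fin 3) (u : ℤˣ) : sm (R i) (-sg i u) = -sg i u := by
  funext j
  by_cases hj : j = i <;> simp [sm, R, sg, hj]

theorem rel_G (i : Fin 3) (u : ℤˣ) : SG * TG (sg i u) * SG =
    DG (R i) * TG (-sg i u) * SG * TG (-sg i u) := by
  have h := G_rel i u
  have h1 : SG * TG (sg i u) * SG = SG * (TG (sg i u) * SG) := by rw [mul_assoc]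
  rw [h1, h]
  have h2 : SG * (SG * TG (-sg i u) * SG * DG (R i) * TG (-sg i u)) =
      (SG * SG) * TG (-sg i u) * SG * DG (R i) * TG (-sg i u) := by simp only [mul_assoc]
  rw [h2, SG_SG, one_mul, DG_TG, sm_R, mul_assoc (TG _) SG, SG_DG]
  simp only [mul_assoc]

/-- The triangle step. -/
theorem tri (A : G) (m : Fin 3 → ℤ) (i : Fin 3) (u : ℤˣ) (h1 : St ρ A (m + sg i u))
    (h2 : St ρ (SG * TG (-m) * A) (-sg i u))
    (h3 : Eq' ρ (TG (-sg i u) * (SG * TG (-(m + sg i u)) * A))) : St ρ A m := by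
  unfold St at *
  rw [neg_neg] at h2
  have e : SG * TG (sg i u) * (SG * TG (-m) * A) =
      DG (R i) * (TG (-sg i u) * (SG * TG (-(m + sg i u)) * A)) := by
    have e1 : SG * TG (sg i u) * (SG * TG (-m) * A) =
        (SG * TG (sg i u) * SG) * TG (-m) * A := by simp only [mul_assoc]
    rw [e1, rel_G]
    have e2 : TG (-(m + sg i u)) = TG (-sg i u) * TG (-m) := by
      rw [← TG_add]; congr 1; abel
    rw [e2]
    simp only [mul_assoc]
  rw [e, h3, phi_T] at h2
  rw [h2, h1, ρ.t_add]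
  have r := ρ.rel i u
  have e3 : ρ.t m * ρ.t (sg i u) * ρ.s * phi ρ (SG * TG (-(m + sg i u)) * A) =
      ρ.t m * (ρ.t (sg i u) * ρ.s) * phi ρ (SG * TG (-(m + sg i u)) * A) := by
    simp only [mul_assoc]
  rw [e3, r]
  simp only [mul_assoc]

/-- Distance to the nearest point. -/
def dst (v w : Fin 3 → ℤ) : ℕ := (v 0 - w 0).natAbs + (v 1 - w 1).natAbs + (v 2 - w 2).natAbs

theorem dst_zero {v w : Fin 3 → ℤ} (h : dst v w = 0) : v = w := by
  unfold dst at h
  funext i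
  fin_cases i
  · change v 0 = w 0
    omega
  · change v 1 = w 1
    omega
  · change v 2 = w 2
    omega

theorem N_move {z : L} (hz : f z = 0) (m : Fin 3 → ℤ) (i : Fin 3) (u : ℤˣ) :
    z.2.2 * N z (m + sg i u) = z.2.2 * N z m +
      (z.2.2 ^ 2 - 2 * z.2.2 * u * (z.2.1 i - z.2.2 * m i)) := by
  rw [N_mul hz, N_mul hz]
  have hu := sq_unit u
  have hu2 : (u : ℤ) ^ 2 = 1 := by rw [sq]; exact hu
  fin_cases i
  · have a : (m + sg 0 u) 0 = m 0 + u := by simp [sg]
    have b : (m + sg 0 u) 1 = m 1 := by simp [sg]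
    have c : (m + sg 0 u) 2 = m 2 := by simp [sg]
    change (z.2.1 0 - z.2.2 * (m + sg 0 u) 0) ^ 2 + (z.2.1 1 - z.2.2 * (m + sg 0 u) 1) ^ 2 +
      (z.2.1 2 - z.2.2 * (m + sg 0 u) 2) ^ 2 = _ + (_ - 2 * z.2.2 * u * (z.2.1 0 - z.2.2 * m 0))
    rw [a, b, c]
    linear_combination (z.2.2) ^ 2 * hu2
  · have a : (m + sg 1 u) 0 = m 0 := by simp [sg]
    have b : (m + sg 1 u) 1 = m 1 + u := by simp [sg]
    have c : (m + sg 1 u) 2 = m 2 := by simp [sg]
    change (z.2.1 0 - z.2.2 * (m + sg 1 u) 0) ^ 2 + (z.2.1 1 - z.2.2 * (m + sg 1 u) 1) ^ 2 +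
      (z.2.1 2 - z.2.2 * (m + sg 1 u) 2) ^ 2 = _ + (_ - 2 * z.2.2 * u * (z.2.1 1 - z.2.2 * m 1))
    rw [a, b, c]
    linear_combination (z.2.2) ^ 2 * hu2
  · have a : (m + sg 2 u) 0 = m 0 := by simp [sg]
    have b : (m + sg 2 u) 1 = m 1 := by simp [sg]
    have c : (m + sg 2 u) 2 = m 2 + u := by simp [sg]
    change (z.2.1 0 - z.2.2 * (m + sg 2 u) 0) ^ 2 + (z.2.1 1 - z.2.2 * (m + sg 2 u) 1) ^ 2 +
      (z.2.1 2 - z.2.2 * (m + sg 2 u) 2) ^ 2 = _ + (_ - 2 * z.2.2 * u * (z.2.1 2 - z.2.2 * m 2))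
    rw [a, b, c]
    linear_combination (z.2.2) ^ 2 * hu2

theorem dst_move {m w : Fin 3 → ℤ} {i : Fin 3} (h : m i ≠ w i) :
    ∃ u : ℤˣ, dst (m + sg i u) w < dst m w ∧ 1 ≤ (u : ℤ) * (w i - m i) := by
  rcases lt_or_gt_of_ne h with h | h
  · refine ⟨1, ?_, by simp; omega⟩
    unfold dst
    fin_cases i
    · change m 0 < w 0 at h
      simp only [Pi.add_apply, sg]
      simp
      omega
    · change m 1 < w 1 at h
      simp only [Pi.add_apply, sg]
      simp
      omega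
    · change m 2 < w 2 at h
      simp only [Pi.add_apply, sg]
      simp
      omega
  · refine ⟨-1, ?_, by simp; omega⟩
    unfold dst
    fin_cases i
    · change w 0 < m 0 at h
      simp only [Pi.add_apply, sg]
      simp
      omega
    · change w 1 < m 1 at h
      simp only [Pi.add_apply, sg]
      simp
      omega
    · change w 2 < m 2 at h
      simp only [Pi.add_apply, sg]
      simp
      omega

end QIG.KM
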