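import Pool.Agent.W_a51130_h68.KM.Defs

/-!
MP_a51130_gt: pairs (automorphism of the lattice, isometry of the upper half space) which match.
-/

namespace QIG.KM

open QIG

/-- The pairing of an integral vector with the point `x` (in natural coordinates `U = 2 u`,
`s = 2 t` this is `(a - 2 b.U + c (|U|^2 + s^2)) / s`). For a cusp this is the inverse of the
height of `x` with respect to that cusp. -/
noncomputable def h (z : L) (x : HPt 3) : ℝ :=
  ((z.1 : ℝ) - 4 * ((z.2.1 0 : ℝ) * x.u 0 + (z.2.1 1 : ℝ) * x.u 1 + (z.2.1 2 : ℝ) * x.u 2) +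
    4 * (z.2.2 : ℝ) * (x.u 0 ^ 2 + x.u 1 ^ 2 + x.u 2 ^ 2 + x.t ^ 2)) / (2 * x.t)

/-- The matching pairs. -/
def GG : Subgroup (Au × Equiv.Perm (HPt 3)) where
  carrier := {p | p.1 ∈ G ∧ (∀ z x, h (p.1 z) (p.2 x) = h z x) ∧
    ∀ x y, chd (p.2 x) (p.2 y) = chd x y}
  one_mem' := ⟨G.one_mem, fun z x => rfl, fun x y => rfl⟩
  mul_mem' := by
    rintro ⟨A, g⟩ ⟨B, k⟩ ⟨hA1, hA2, hA3⟩ ⟨hB1, hB2, hB3⟩
    refine ⟨G.mul_mem hA1 hB1, fun z x => ?_, fun x y => ?_⟩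
    · change h (A (B z)) (g (k x)) = _
      rw [hA2, hB2]
    · change chd (g (k x)) (g (k y)) = _
      rw [hA3, hB3]
  inv_mem' := by
    rintro ⟨A, g⟩ ⟨hA1, hA2, hA3⟩
    refine ⟨G.inv_mem hA1, fun z x => ?_, fun x y => ?_⟩
    · change h (A⁻¹ z) (g⁻¹ x) = _
      rw [← hA2 (A⁻¹ z) (g⁻¹ x)]
      change h (A (A⁻¹ z)) (g (g⁻¹ x)) = _
      rw [mul_inv_ap]
      exact congrArg _ (g.apply_symm_apply x)
    · change chd (g⁻¹ x) (g⁻¹ y) = _
      rw [← hA3 (g⁻¹ x) (g⁻¹ y)]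
      exact congrArg₂ chd (g.apply_symm_apply x) (g.apply_symm_apply y)

/-- Half of an integral vector, as a vector of `E 3`. -/
noncomputable def half (v : Fin 3 → ℤ) : E 3 := WithLp.toLp 2 (fun i => (v i : ℝ) / 2)

@[simp] theorem half_apply (v : Fin 3 → ℤ) (i : Fin 3) : half v i = (v i : ℝ) / 2 := rfl

/-- Sign change on the upper half space. -/
noncomputable def flip (d : Sg) : Equiv.Perm (HPt 3) where
  toFun x := ⟨WithLp.toLp 2 (fun i => ((d i : ℤ) : ℝ) * x.u i), x.t, x.pos⟩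
  invFun x := ⟨WithLp.toLp 2 (fun i => ((d i : ℤ) : ℝ) * x.u i), x.t, x.pos⟩
  left_inv x := by
    refine HPt.ext ?_ rfl
    ext i
    change ((d i : ℤ) : ℝ) * (((d i : ℤ) : ℝ) * x.u i) = x.u i
    rw [← mul_assoc, ← Int.cast_mul, sq_unit, Int.cast_one, one_mul]
  right_inv x := by
    refine HPt.ext ?_ rfl
    ext i
    change ((d i : ℤ) : ℝ) * (((d i : ℤ) : ℝ) * x.u i) = x.u i
    rw [← mul_assoc, ← Int.cast_mul, sq_unit, Int.cast_one, one_mul]

/-- `|u|^2 + t^2`. -/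
noncomputable def nn (x : HPt 3) : ℝ := x.u 0 ^ 2 + x.u 1 ^ 2 + x.u 2 ^ 2 + x.t ^ 2

theorem nn_pos (x : HPt 3) : 0 < nn x := by
  have := x.pos
  unfold nn
  positivity

/-- The inversion (central symmetry at `(0, 1/2)`). -/
noncomputable def rho (x : HPt 3) : HPt 3 :=
  ⟨WithLp.toLp 2 (fun i => - x.u i / (4 * nn x)), x.t / (4 * nn x),
    div_pos x.pos (by have := nn_pos x; positivity)⟩

theorem rho_u (x : HPt 3) (i : Fin 3) : (rho x).u i = - x.u i / (4 * nn x) := rfl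
theorem rho_t (x : HPt 3) : (rho x).t = x.t / (4 * nn x) := rfl

theorem nn_rho (x : HPt 3) : nn (rho x) = 1 / (16 * nn x) := by
  have h1 := nn_pos x
  have k : ∀ a b c s n : ℝ, 0 < n → n = a ^ 2 + b ^ 2 + c ^ 2 + s ^ 2 →
      (-a / (4 * n)) ^ 2 + (-b / (4 * n)) ^ 2 + (-c / (4 * n)) ^ 2 + (s / (4 * n)) ^ 2 =
      1 / (16 * n) := by
    intro a b c s n hn e
    field_simp
    rw [e]
    ring
  exact k _ _ _ _ _ h1 rfl

theorem rho_rho (x : HPt 3) : rho (rho x) = x := by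
  have h1 := nn_pos x
  refine HPt.ext ?_ ?_
  · ext i
    rw [rho_u, nn_rho, rho_u]
    field_simp
    norm_num
  · rw [rho_t, nn_rho, rho_t]
    field_simp
    norm_num

/-- The inversion as a permutation. -/
noncomputable def ivs : Equiv.Perm (HPt 3) where
  toFun := rho
  invFun := rho
  left_inv := rho_rho
  right_inv := rho_rho

@[simp] theorem ivs_apply (x : HPt 3) : ivs x = rho x := rfl

theorem normsq (x y : HPt 3) : ‖x.u - y.u‖ ^ 2 =
    (x.u 0 - y.u 0) ^ 2 + (x.u 1 - y.u 1) ^ 2 + (x.u 2 - y.u 2) ^ 2 := by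
  rw [EuclideanSpace.norm_sq_eq, Fin.sum_univ_three]
  simp only [Real.norm_eq_abs, sq_abs]
  rfl

theorem pT_mem (v : Fin 3 → ℤ) : ((T v, transl (half v)) : Au × Equiv.Perm (HPt 3)) ∈ GG := by
  refine ⟨T_mem v, fun z x => ?_, fun x y => ?_⟩
  · change h (T v z) (transl (half v) x) = _
    have e : ∀ i, (transl (half v) x).u i = x.u i + (v i : ℝ) / 2 := fun i => rfl
    simp only [h, T_apply, transl_t, e, ip]
    congr 1
    push_cast
    ring
  · change chd (transl (half v) x) (transl (half v) y) = _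
    simp only [chd, transl_u, transl_t, add_sub_add_right_eq_sub]

theorem pD_mem (d : Sg) : ((Dg d, flip d) : Au × Equiv.Perm (HPt 3)) ∈ GG := by
  have q : ∀ i, (((d i : ℤ) : ℝ)) ^ 2 = 1 := by
    intro i
    rw [sq, ← Int.cast_mul, sq_unit, Int.cast_one]
  have e : ∀ x i, (flip d x).u i = ((d i : ℤ) : ℝ) * x.u i := fun x i => rfl
  have e' : ∀ x, (flip d x).t = x.t := fun x => rfl
  refine ⟨Dg_mem d, fun z x => ?_, fun x y => ?_⟩
  · change h (Dg d z) (flip d x) = _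
    simp only [h, Dg_apply, e, e', sm]
    congr 1
    push_cast
    linear_combination (-4 * (z.2.1 0 : ℝ) * x.u 0 + 4 * (z.2.2 : ℝ) * x.u 0 ^ 2) * q 0 +
      (-4 * (z.2.1 1 : ℝ) * x.u 1 + 4 * (z.2.2 : ℝ) * x.u 1 ^ 2) * q 1 +
      (-4 * (z.2.1 2 : ℝ) * x.u 2 + 4 * (z.2.2 : ℝ) * x.u 2 ^ 2) * q 2
  · change chd (flip d x) (flip d y) = _
    simp only [chd, normsq, e, e']
    congr 1
    linear_combination (x.u 0 - y.u 0) ^ 2 * q 0 + (x.u 1 - y.u 1) ^ 2 * q 1 +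
      (x.u 2 - y.u 2) ^ 2 * q 2

theorem pS_mem : ((S, ivs) : Au × Equiv.Perm (HPt 3)) ∈ GG := by
  refine ⟨S_mem, fun z x => ?_, fun x y => ?_⟩
  · change h (S z) (rho x) = _
    have h1 := nn_pos x
    have h2 := x.pos
    have e : h (S z) (rho x) = ((z.2.2 : ℝ) - 4 * (-(z.2.1 0 : ℝ) * (rho x).u 0 +
        -(z.2.1 1 : ℝ) * (rho x).u 1 + -(z.2.1 2 : ℝ) * (rho x).u 2) +
        4 * (z.1 : ℝ) * nn (rho x)) / (2 * (rho x).t) := by
      simp only [h, S_apply, nn]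
      push_cast
      rfl
    rw [e, nn_rho, rho_u, rho_u, rho_u, rho_t]
    have e2 : h z x = ((z.1 : ℝ) - 4 * ((z.2.1 0 : ℝ) * x.u 0 + (z.2.1 1 : ℝ) * x.u 1 +
      (z.2.1 2 : ℝ) * x.u 2) + 4 * (z.2.2 : ℝ) * nn x) / (2 * x.t) := rfl
    rw [e2]
    field_simp
    ring
  · change chd (rho x) (rho y) = _
    have h1 := nn_pos x
    have h2 := x.pos
    have h3 := nn_pos y
    have h4 := y.pos
    simp only [chd, normsq, rho_u, rho_t]
    have k : ∀ a b c d s a' b' c' d' s' n n' : ℝ, 0 < n → 0 < n' → 0 < s → 0 < s' →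
        n = a ^ 2 + b ^ 2 + c ^ 2 + s ^ 2 → n' = a' ^ 2 + b' ^ 2 + c' ^ 2 + s' ^ 2 →
        ((-a / (4 * n) - -a' / (4 * n')) ^ 2 + (-b / (4 * n) - -b' / (4 * n')) ^ 2 +
        (-c / (4 * n) - -c' / (4 * n')) ^ 2 + (s / (4 * n) - s' / (4 * n')) ^ 2) /
        (2 * (s / (4 * n)) * (s' / (4 * n'))) =
        ((a - a') ^ 2 + (b - b') ^ 2 + (c - c') ^ 2 + (s - s') ^ 2) / (2 * s * s') := by
      intro a b c d s a' b' c' d' s' n n' hn hn' hs hs' e e'
      rw [div_eq_div_iff (by positivity) (by positivity)]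
      field_simp
      subst e e'
      ring
    exact k _ _ _ 0 _ _ _ _ 0 _ _ _ h1 h3 h2 h4 rfl rfl

end QIG.KM
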