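import Pool.Agent.W_a51130_h68.KM.Defs

/-!
MP_a51130_gt: presentation of the group `G` (descent on the denominator of the cusp).
-/

namespace QIG.KM

theorem TG_add (v w : Fin 3 → ℤ) : TG (v + w) = TG v * TG w := by
  apply Subtype.ext
  apply LinearEquiv.ext
  intro z
  change T (v + w) z = T v (T w z)
  refine Prod.ext ?_ (Prod.ext ?_ rfl)
  · simp only [T_apply, ip, Pi.add_apply]; ring
  · funext i; simp only [T_apply, Pi.add_apply]; ring

theorem TG_zero : TG 0 = 1 := by
  have h := TG_add 0 0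
  rw [add_zero] at h
  exact left_eq_mul.mp h

theorem TG_neg (v : Fin 3 → ℤ) : TG (-v) = (TG v)⁻¹ := by
  rw [eq_inv_iff_mul_eq_one, ← TG_add, neg_add_cancel, TG_zero]

theorem DG_mul (d e : Sg) : DG (d * e) = DG d * DG e := by
  apply Subtype.ext
  apply LinearEquiv.ext
  intro z
  change Dg (d * e) z = Dg d (Dg e z)
  refine Prod.ext rfl (Prod.ext ?_ rfl)
  funext i; simp only [Dg_apply, sm, Pi.mul_apply, Units.val_mul]; ring

theorem DG_TG (d : Sg) (v : Fin 3 → ℤ) : DG d * TG v = TG (sm d v) * DG d := by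
  apply Subtype.ext
  apply LinearEquiv.ext
  intro z
  change Dg d (T v z) = T (sm d v) (Dg d z)
  refine Prod.ext ?_ (Prod.ext ?_ rfl)
  · simp only [T_apply, Dg_apply, ip, sm]
    linear_combination (- 2 * (v 0 * z.2.1 0) - v 0 * v 0 * z.2.2) * sq_unit (d 0) +
      (- 2 * (v 1 * z.2.1 1) - v 1 * v 1 * z.2.2) * sq_unit (d 1) +
      (- 2 * (v 2 * z.2.1 2) - v 2 * v 2 * z.2.2) * sq_unit (d 2)
  · funext i; simp only [T_apply, Dg_apply, sm]; ring

theorem SG_SG : SG * SG = 1 := by
  apply Subtype.ext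
  apply LinearEquiv.ext
  intro z
  change S (S z) = z
  refine Prod.ext rfl (Prod.ext ?_ rfl)
  funext i; simp only [S_apply, neg_neg]

theorem SG_DG (d : Sg) : SG * DG d = DG d * SG := by
  apply Subtype.ext
  apply LinearEquiv.ext
  intro z
  change S (Dg d z) = Dg d (S z)
  refine Prod.ext rfl (Prod.ext ?_ rfl)
  funext i; simp only [S_apply, Dg_apply, sm]; ring

theorem G_rel (i : Fin 3) (u : ℤˣ) : TG (sg i u) * SG =
    SG * TG (-sg i u) * SG * DG (R i) * TG (-sg i u) := by
  apply Subtype.ext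
  apply LinearEquiv.ext
  intro z
  change T (sg i u) (S z) = S (T (-sg i u) (S (Dg (R i) (T (-sg i u) z))))
  have hu : (u : ℤ) * u = 1 := sq_unit u
  rcases Int.units_eq_one_or u with rfl | rfl <;> fin_cases i <;>
  · refine Prod.ext ?_ (Prod.ext ?_ ?_)
    · simp [T_apply, S_apply, Dg_apply, ip, sm, sg, R] <;> ring
    · funext j
      fin_cases j <;> simp [T_apply, S_apply, Dg_apply, ip, sm, sg, R] <;> ring
    · simp [T_apply, S_apply, Dg_apply, ip, sm, sg, R] <;> ring

/-- `G` itself. -/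
def idRep : Rep G where
  t := TG
  r := DG
  s := SG
  t_add := TG_add
  r_mul := DG_mul
  rt := DG_TG
  ss := SG_SG
  sr := SG_DG
  rel := G_rel

end QIG.KM
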