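import Pool.Agent.W_a51130_h68.KM.Defs

/-!
MP_a51130_gt: the finite set `Sg x B` and the table of the example.
-/

namespace QIG.KM

/-- `Z^3` modulo `2 Z x 2 Z x 24 Z`. -/
abbrev B : Type := ZMod 2 × ZMod 2 × ZMod 24

/-- Reduction. -/
def q : (Fin 3 → ℤ) →+ B where
  toFun v := ((v 0 : ZMod 2), (v 1 : ZMod 2), (v 2 : ZMod 24))
  map_zero' := by simp
  map_add' v w := by simp

/-- Number of an element of `B`. -/
def idx (b : B) : ℕ := b.1.val + 2 * b.2.1.val + 4 * b.2.2.val

/-- Element of `B` with a given number. -/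
def dec (k : ℕ) : B :=
  ((⟨k % 2, Nat.mod_lt _ (by norm_num)⟩ : Fin 2), (⟨k / 2 % 2, Nat.mod_lt _ (by norm_num)⟩ : Fin 2),
    (⟨k / 4 % 24, Nat.mod_lt _ (by norm_num)⟩ : Fin 24))

/-- The table of the permutation; period `32`. -/
def tauN (k : ℕ) : ℕ :=
  (0x83a244d495e132f20425435192e4b0758523c4531263b1f104a2c5d41362357 / 256 ^ (k % 32) % 256 +
    32 * (k / 32)) % 96

/-- The table of the signs; period `32`. -/
def rhoN (k : ℕ) : ℕ :=
  0x2010003020200000301010203030100030000030303000103000102030200 / 256 ^ (k % 32) % 256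

/-- The permutation. -/
def tau (b : B) : B := dec (tauN (idx b))

/-- The four rotations. -/
def V : ℕ → Sg
  | 0 => 1
  | 1 => R 0
  | 2 => R 1
  | _ => R 2

/-- The rotation attached to `b`. -/
def vb (b : B) : Sg := V (rhoN (idx b))

/-- The image of `± e_i`. -/
def un (i : Fin 3) (u : ℤˣ) : B :=
  if i = 0 then (1, 0, 0) else if i = 1 then (0, 1, 0) else (0, 0, if u = 1 then 1 else -1)

theorem tau_tau : ∀ b, tau (tau b) = b ∧ vb (tau b) = vb b := by
  decide +kernel

theorem fin_rel : ∀ b : B, ∀ i : Fin 3, ∀ u : ℤˣ,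
    vb b = R i * vb (b - un i u) * vb (tau (b - un i u) - un i (vb (b - un i u) i * u)) ∧
    tau b + un i (vb b i * u) = tau (tau (b - un i u) - un i (vb (b - un i u) i * u)) := by
  decide +kernel

end QIG.KM
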